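import Mathlib
import Pool.Agent.Run7.h462.KT.Stm

/-!
# Project LW (helper462): patterns in dense sets of primes (or of integers without small prime factors) in a short interval

`T` is a set of integers in `(x, x + Y]` without prime factors `≤ Y^κ`, `#T ≥ δ Y / log Y`; `x` is arbitrary. For a positive proportion of ALL
tuples `h` of `k` distinct integers `0 ≤ h_i < H`, `B log Y ≤ H ≤ c Y`, there are at least `(1 - η) 𝔖(h) #T^k / Y^(k-1)` integers `y` with all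
`y + h_i` in `T`; and for a positive proportion of the increasing tuples, `H = B log Y`, at least `c Y / (log Y)^k` such `y` for which
`y + h_1, ..., y + h_k` are consecutive elements of `T`.

Statements. Every statement is a `Prop` with a complete proof in its docstring. `inj k H`, `gk`, `ov` are those of project KT
(`Pool/Agent/Run7/h462/KT/Stm.lean`).
-/

set_option autoImplicit false

namespace Run7.h462.LW

open Finset
open Run7.h462.KT (gk inj ov)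
open scoped Polynomial

/-- the number of the `y` with all `y + h_i` in `T`, for `T ⊆ (x, x + Y]` and `h_i < H` -/
noncomputable def cnt {k : ℕ} (x : ℤ) (Y H : ℕ) (T : Finset ℤ) (h : Fin k → ℕ) : ℕ :=
  #((Ioc (x - H) (x + Y)).filter (fun y : ℤ => ∀ i, y + (h i : ℤ) ∈ T))

/-- no element of `T` has a prime factor `≤ Y^κ` -/
def Rgh (κ : ℝ) (Y : ℕ) (T : Finset ℤ) : Prop := ∀ t ∈ T, ∀ p : ℕ, p.Prime → (p : ℝ) ≤ (Y : ℝ) ^ κ → ¬ (p : ℤ) ∣ t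

/-- **SM**: second moment of the truncated singular series of the linear tuples. Proof: `Run7.h304.KT.gk_split h 1 w` writes
`gk X h w` as `gk X h 1` times the product over the primes `1 < p ≤ w` of factors which are `≤ 1` if `¬ ov h p` (`fac_no`) and `≤ 1 + 3^k / p`
otherwise (`fac_ov`), all `≥ 0`; `(1 + 3^k/p)² ≤ 1 + (2 * 3^k + 9^k) / p`; now `Run7.h304.KT.ov_main k` with `C = 2 * 3^k + 9^k` and `y = 1`. -/
def S_SM (k : ℕ) : Prop := ∃ C : ℝ, 1 ≤ C ∧ ∀ w : ℕ, 1 ≤ w → ∀ H : ℕ,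
  ∑ h ∈ inj k H, gk (Polynomial.X : ℤ[X]) h w ^ 2 ≤ C * (H : ℝ) ^ k

/-- **CUT**: the truncated singular series does not depend on the cut. Proof: `Run7.h462.KT.close_one` (`KT/Clk.lean`) with `F = X`, `κ = 0`,
`A = H + 1` for the tuple `a = h + 1` (so that `a i ∈ Icc 1 A`): `rho X t p = 1` for every prime `p`, so `hh X t z = 1` for `z ≥ 1`; `rk X h p` is the number of the
residues `h_i mod p` (`Run7.h462.KT.rk_X`), so `gk X (h + 1) = gk X h`. -/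
def S_CUT (k : ℕ) : Prop := ∀ θ : ℝ, 0 < θ → θ ≤ 1 → ∀ H y z : ℕ, 4 * k ≤ y → 1 ≤ y → y ≤ z →
  2 * ((k : ℝ) ^ 2 / y + 4 * (k : ℝ) ^ 3 * Real.log (H + 1 : ℕ) / y) ≤ θ → ∀ h ∈ inj k H,
  |gk (Polynomial.X : ℤ[X]) h z - gk (Polynomial.X : ℤ[X]) h y| ≤ θ * gk (Polynomial.X : ℤ[X]) h y

/-- **UPW**: pointwise upper bound. Proof: as `Run7.h824.KT.upk` (`Pool/Agent/Run7/h824/KT/UPK.lean`) with `Pool.Agent.TH204.WR.flp k` for the polynomial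
`Q X h`, `t = 0`, shift `A = x - H`, `N = Y + H ≤ 2 Y` and `z₀ = ⌊Y^κ'⌋`, `κ'` small in terms of `κ`, `k`: a counted `y` has no `p ≤ z₀` with `p ∣ ∏ (y + h_i)`; if
`rho (Q X h) 0 p = p` for some `p ≤ z₀` the count is `0` (`Run7.h824.KT.dvd_of_rho`, `dvd_Q`). So the count is at most `4 Y ∏_{p ≤ z₀} (1 - rk/p)
= 4 Y Vz(z₀)^k gk X h z₀` (`Vz_gk`), `Vz z₀ ≤ 1 / log z₀ ≤ C / log Y` (`Pool.Agent.N792.V1_le`), and `gk X h z₀ ≤ 2 gk X h ⌊log² Y⌋` by CUT. -/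
def S_UPW (k : ℕ) : Prop := ∀ κ : ℝ, 0 < κ → ∃ D : ℝ, 1 ≤ D ∧ ∃ Y₀ : ℕ, ∀ Y : ℕ, Y₀ ≤ Y → ∀ x : ℤ, ∀ T : Finset ℤ,
  T ⊆ Ioc x (x + Y) → Rgh κ Y T → ∀ H : ℕ, H ≤ Y → ∀ h ∈ inj k H,
  (cnt x Y H T h : ℝ) ≤ D * (Y / Real.log Y ^ k) * gk (Polynomial.X : ℤ[X]) h ⌊Real.log Y ^ 2⌋₊

/-- **FMW**: the first moment. Proof: with `t(y)` the number of the `0 ≤ j < H` with `y + j ∈ T` one has `∑_h cnt = ∑_y t(y) (t(y) - 1) ... (t(y) - k + 1)
≥ ∑_y max (t(y) - k) 0 ^ k` (as `Run7.h462.KT.card_inj_ge` in `KT/Fmk.lean`), the sum over the `Y + H` integers `y ∈ (x - H, x + Y]`; `∑_y t(y) = H #T`; by the power mean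
inequality (`inner_le_nnorm_mul_nnorm` or `inv_mul_sum_pow_le...`, see `KT/Fmk.lean`) the sum is at least `(Y + H) (m - k)^k`, `m = H #T / (Y + H)`, which is large if `B` is large and `c₀ ≤ 1`. -/
def S_FMW (k : ℕ) : Prop := ∀ η δ : ℝ, 0 < η → 0 < δ → ∃ B c₀ : ℝ, 0 < B ∧ 0 < c₀ ∧ c₀ ≤ 1 ∧ ∀ Y : ℕ, 2 ≤ Y → ∀ x : ℤ,
  ∀ T : Finset ℤ, T ⊆ Ioc x (x + Y) → δ * (Y / Real.log Y) ≤ #T → ∀ H : ℕ, B * Real.log Y ≤ H → (H : ℝ) ≤ c₀ * Y →
  (1 - η) * ((H : ℝ) ^ k * ((#T : ℝ) ^ k / (Y : ℝ) ^ (k - 1))) ≤ ∑ h ∈ inj k H, (cnt x Y H T h : ℝ)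

end Run7.h462.LW
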