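import Pool.Agent.Run7.h462.LW.Aap
import Pool.Agent.Run7.h304.LW.SM
import Pool.Agent.Run7.h304.LW.CUT
import Pool.Agent.Run7.h847.LW.FMW
import Pool.Agent.Run7.h646.LW.UPW
import Pool.Agent.Run7.h304.KT.GA
import Pool.Agent.Run7.h304.KT.OV

/-!
# Project LW: everything together
-/

set_option autoImplicit false

namespace Run7.h462.LW

open Finset Filter Topology
open Run7.h462.KT (gk inj S_GA gk_nonneg)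
open Run7.h337.MK (primesBetween)
open scoped Polynomial

theorem sm (k : ℕ) : S_SM k := Run7.h304.LW.t_SM k
theorem cut (k : ℕ) : S_CUT k := Run7.h304.LW.t_CUT k
theorem upw (k : ℕ) : S_UPW k := Run7.h646.LW.t_UPW k (cut k)
theorem fmw (k : ℕ) : S_FMW k := Run7.h847.LW.fmw k
theorem ga (k : ℕ) (hk : 1 ≤ k) : S_GA k := Run7.h304.KT.ga_main k hk (Run7.h304.KT.ov_main k)

theorem allA (d k : ℕ) (hd : 1 ≤ d) (hk : 1 ≤ k) (κ δ η : ℝ) (hκ : 0 < κ) (hδ : 0 < δ) (hη : 0 < η) (hη1 : η ≤ 1) :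
    ∃ c B : ℝ, 0 < c ∧ 0 < B ∧ ∃ N₀ : ℕ, ∀ n : ℕ, N₀ ≤ n → ∀ T ⊆ Ioo (n ^ (d + 1)) ((n + 1) ^ (d + 1)),
      (∀ t ∈ T, ∀ p : ℕ, p.Prime → (p : ℝ) ≤ (n : ℝ) ^ κ → ¬ p ∣ t) → δ * ((n : ℝ) ^ d / Real.log n) ≤ #T →
      ∀ H : ℕ, B * Real.log n ≤ H → (H : ℝ) ≤ c * (n : ℝ) ^ d →
      ∃ G ⊆ inj k H, c * (H : ℝ) ^ k ≤ #G ∧
        ∀ h ∈ G, ∀ z : ℕ, ((d + 1) * Real.log n) ^ 2 ≤ z → c ≤ gk (Polynomial.X : ℤ[X]) h z ∧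
          (1 - η) * gk (Polynomial.X : ℤ[X]) h z *
            ((#T : ℝ) ^ k / (((n + 1) ^ (d + 1) - n ^ (d + 1) : ℕ) : ℝ) ^ (k - 1)) ≤ pat ((n + 1) ^ (d + 1)) T h :=
  powA d k hd hk (sm k) (cut k) (upw k) (fmw k) (ga k hk) κ δ η hκ hδ hη hη1

theorem allB (d m : ℕ) (hd : 1 ≤ d) (κ δ : ℝ) (hκ : 0 < κ) (hδ : 0 < δ) :
    ∃ c B : ℝ, 0 < c ∧ 0 < B ∧ ∃ N₀ : ℕ, ∀ n : ℕ, N₀ ≤ n → ∀ T ⊆ Ioo (n ^ (d + 1)) ((n + 1) ^ (d + 1)),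
      (∀ t ∈ T, ∀ p : ℕ, p.Prime → (p : ℝ) ≤ (n : ℝ) ^ κ → ¬ p ∣ t) → δ * ((n : ℝ) ^ d / Real.log n) ≤ #T →
      ∃ G : Finset (Fin (m + 1) → ℕ), c * Real.log n ^ m ≤ #G ∧
        ∀ D ∈ G, StrictMono D ∧ D 0 = 0 ∧ (∀ i, (D i : ℝ) ≤ B * Real.log n) ∧
          c * ((n : ℝ) ^ d / Real.log n ^ (m + 1)) ≤ csc T D :=
  powB d m hd (sm (m + 1)) (upw (m + 1)) κ δ hκ hδ

theorem allPrimesA (d k : ℕ) (hd : 1 ≤ d) (hk : 1 ≤ k) (η : ℝ) (hη : 0 < η) (hη1 : η ≤ 1) :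
    ∃ c B : ℝ, 0 < c ∧ 0 < B ∧ ∀ U : ℕ, ∃ X₀ : ℕ, ∀ X : ℕ, X₀ ≤ X → ∃ E : Finset ℕ, (#E : ℝ) ≤ X / Real.log X ^ U ∧
      ∀ n : ℕ, n ≤ X → n ∉ E → ∀ H : ℕ, B * Real.log n ≤ H → (H : ℝ) ≤ c * (n : ℝ) ^ d →
      ∃ G ⊆ inj k H, c * (H : ℝ) ^ k ≤ #G ∧
        ∀ h ∈ G, ∀ z : ℕ, ((d + 1) * Real.log n) ^ 2 ≤ z → c ≤ gk (Polynomial.X : ℤ[X]) h z ∧
          (1 - η) * gk (Polynomial.X : ℤ[X]) h z * ((d + 1) * (n : ℝ) ^ d / ((d + 1) * Real.log n) ^ k) ≤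
            pat ((n + 1) ^ (d + 1)) (primesBetween (n ^ (d + 1)) ((n + 1) ^ (d + 1))) h :=
  primesA d k hd hk (sm k) (cut k) (upw k) (fmw k) (ga k hk) η hη hη1

theorem allPrimesB (d m : ℕ) (hd : 1 ≤ d) :
    ∃ c B : ℝ, 0 < c ∧ 0 < B ∧ ∀ U : ℕ, ∃ X₀ : ℕ, ∀ X : ℕ, X₀ ≤ X → ∃ E : Finset ℕ, (#E : ℝ) ≤ X / Real.log X ^ U ∧
      ∀ n : ℕ, n ≤ X → n ∉ E →
      ∃ G : Finset (Fin (m + 1) → ℕ), c * Real.log n ^ m ≤ #G ∧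
        ∀ D ∈ G, StrictMono D ∧ D 0 = 0 ∧ (∀ i, (D i : ℝ) ≤ B * Real.log n) ∧
          c * ((n : ℝ) ^ d / Real.log n ^ (m + 1)) ≤ csc (primesBetween (n ^ (d + 1)) ((n + 1) ^ (d + 1))) D :=
  primesB d m hd (sm (m + 1)) (upw (m + 1))

end Run7.h462.LW
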