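import Pool.Agent.Run7.h462.LW.Pow
import Pool.Agent.Run7.h337.MK.Tuples
import Pool.Agent.Run7.h880.MK.Maj1
import Pool.Agent.Run7.h794.MK.SiaAll

/-!
# Project LW (helper462): all primes between consecutive powers, for almost all `n`
-/

set_option autoImplicit false

namespace Run7.h462.LW

open Finset Filter Topology
open Run7.h462.KT (gk inj S_GA gk_nonneg)
open Run7.h337.MK (tupleCount primesBetween)
open scoped Polynomial

/-- the prime number theorem between almost all pairs of consecutive powers -/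
lemma pnt (d : ℕ) (hd : 1 ≤ d) (U : ℕ) (ε : ℝ) (hε : 0 < ε) (hε1 : ε ≤ 1) :
    ∃ X₀ : ℕ, ∀ X : ℕ, X₀ ≤ X → ∃ E : Finset ℕ, (#E : ℝ) ≤ X / Real.log X ^ U ∧ ∀ n : ℕ, 1 ≤ n → n ≤ X → n ∉ E →
      |(#(primesBetween (n ^ (d + 1)) ((n + 1) ^ (d + 1))) : ℝ) - (n : ℝ) ^ d / Real.log n| ≤
        ε * ((n : ℝ) ^ d / Real.log n) := by
  obtain ⟨V, C, D, X₀, h⟩ := Run7.h337.MK.pow_tuples
    (Pool.Agent.Run7.h880.MK.t_MAJ1 Pool.Agent.Run7.h794.MK.sia_all) d hd 0 0 U ε hε hε1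
  refine ⟨X₀, fun X hX => ?_⟩
  obtain ⟨E, hE, h2⟩ := h X hX
  refine ⟨E, hE, fun n hn1 hnX hnE => ?_⟩
  obtain ⟨-, -, h3⟩ := h2 n hn1 hnX hnE (fun _ => 1) (fun j => j.elim0) (ι := fun _ => Unit)
    (fun _ => ∅) (fun _ _ => 0) (fun j => j.elim0) (fun _ => 1) (fun j => j.elim0)
  have h4 : tupleCount (n ^ (d + 1)) ((n + 1) ^ (d + 1)) (fun _ : Fin 0 => (1 : ℤ)) (q := fun _ => 1)
      (ι := fun _ => Unit) (fun _ _ => 0)
      (fun _ => ∅) (primesBetween (n ^ (d + 1)) ((n + 1) ^ (d + 1))) =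
      #(primesBetween (n ^ (d + 1)) ((n + 1) ^ (d + 1))) := by
    unfold tupleCount
    rw [card_eq_sum_ones]
    apply sum_congr rfl
    intro m _
    rw [filter_true_of_mem (fun i _ j => j.elim0)]
    simp
  rw [h4] at h3
  simpa using h3

/-- the length of the interval -/
lemma len (d : ℕ) (θ : ℝ) (hθ : 0 < θ) : ∃ N₀ : ℕ, ∀ n : ℕ, N₀ ≤ n →
    ((((n + 1) ^ (d + 1) - n ^ (d + 1) : ℕ)) : ℝ) ≤ (1 + θ) * ((d + 1) * (n : ℝ) ^ d) := by
  have h1 : Tendsto (fun n : ℕ => (1 + 1 / (n : ℝ)) ^ d) atTop (𝓝 1) := by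
    have h2 : Tendsto (fun n : ℕ => 1 + 1 / (n : ℝ)) atTop (𝓝 (1 + 0)) :=
      tendsto_const_nhds.add tendsto_one_div_atTop_nhds_zero_nat
    have h3 := h2.pow d
    simpa using h3
  obtain ⟨N₀, hN₀⟩ := eventually_atTop.1 (h1.eventually_le_const (show (1 : ℝ) < 1 + θ by linarith))
  refine ⟨max N₀ 1, fun n hn => ?_⟩
  have h2 := hN₀ n ((le_max_left _ _).trans hn)
  have hn1 : 1 ≤ n := (le_max_right _ _).trans hn
  have hn0 : (0 : ℝ) < n := by exact_mod_cast hn1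
  have hle : n ^ (d + 1) ≤ (n + 1) ^ (d + 1) := Nat.pow_le_pow_left (by omega) _
  rw [Nat.cast_sub hle]
  push_cast
  have h3 : ((n : ℝ) + 1) ^ (d + 1) - (n : ℝ) ^ (d + 1) ≤ (d + 1) * ((n : ℝ) + 1) ^ d := by
    have h4 := Commute.mul_geom_sum₂ (Commute.all ((n : ℝ) + 1) (n : ℝ)) (d + 1)
    have h5 : ((n : ℝ) + 1 - n) * ∑ i ∈ range (d + 1), ((n : ℝ) + 1) ^ i * (n : ℝ) ^ (d + 1 - 1 - i) =
        ((n : ℝ) + 1) ^ (d + 1) - (n : ℝ) ^ (d + 1) := h4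
    rw [← h5, add_sub_cancel_left, one_mul]
    calc ∑ i ∈ range (d + 1), ((n : ℝ) + 1) ^ i * (n : ℝ) ^ (d + 1 - 1 - i) ≤
        ∑ _i ∈ range (d + 1), ((n : ℝ) + 1) ^ d := by
          apply sum_le_sum
          intro i hi
          rw [mem_range] at hi
          calc ((n : ℝ) + 1) ^ i * (n : ℝ) ^ (d + 1 - 1 - i) ≤ ((n : ℝ) + 1) ^ i * ((n : ℝ) + 1) ^ (d + 1 - 1 - i) := by
                gcongr
                linarith
            _ = ((n : ℝ) + 1) ^ d := by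
                rw [← pow_add]
                congr 1
                omega
      _ = (d + 1) * ((n : ℝ) + 1) ^ d := by
          rw [sum_const, card_range, nsmul_eq_mul]
          push_cast
          ring
  refine h3.trans ?_
  have h6 : ((n : ℝ) + 1) ^ d = (1 + 1 / (n : ℝ)) ^ d * (n : ℝ) ^ d := by
    rw [← mul_pow]
    congr 1
    field_simp
  rw [h6]
  have h7 : 0 ≤ ((d : ℝ) + 1) * (n : ℝ) ^ d := by positivity
  nlinarith

lemma primes_rough (n a b : ℕ) (hn : 2 ≤ n) (ha : n < a) : ∀ t ∈ primesBetween a b, ∀ p : ℕ, p.Prime →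
    (p : ℝ) ≤ (n : ℝ) ^ (1 : ℝ) → ¬ p ∣ t := by
  intro t ht p hp hpn hdv
  unfold Run7.h337.MK.primesBetween at ht
  rw [mem_filter, mem_Ioo] at ht
  have h1 := (Nat.prime_dvd_prime_iff_eq hp ht.2).1 hdv
  rw [Real.rpow_one] at hpn
  have h2 : p ≤ n := by exact_mod_cast hpn
  omega

/-- adding finitely many exceptions -/
lemma add_small (U N₀ : ℕ) : ∃ X₀ : ℕ, ∀ X : ℕ, X₀ ≤ X → ∀ E : Finset ℕ, (#E : ℝ) ≤ X / Real.log X ^ (U + 1) →
    (#(E ∪ range N₀) : ℝ) ≤ X / Real.log X ^ U := by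
  have h1 : Tendsto (fun x : ℝ => x / Real.log x ^ (U + 1)) atTop atTop := by
    have h2 := Real.isLittleO_pow_log_id_atTop (n := U + 1)
    have h3 := h2.tendsto_div_nhds_zero
    have h4 : Tendsto (fun x : ℝ => Real.log x ^ (U + 1) / x) atTop (𝓝[>] 0) := by
      rw [tendsto_nhdsWithin_iff]
      refine ⟨h3, ?_⟩
      filter_upwards [eventually_gt_atTop (1 : ℝ)] with x hx
      exact div_pos (pow_pos (Real.log_pos hx) _) (by linarith)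
    have h5 := h4.inv_tendsto_nhdsGT_zero
    refine h5.congr fun x => ?_
    simp only [Pi.inv_apply, inv_div]
  have h2 := h1.comp (tendsto_natCast_atTop_atTop (R := ℝ))
  have hlim : Tendsto (fun Y : ℕ => Real.log Y) atTop atTop :=
    Real.tendsto_log_atTop.comp tendsto_natCast_atTop_atTop
  obtain ⟨X₀, hX₀⟩ := eventually_atTop.1 ((h2.eventually_ge_atTop (N₀ : ℝ)).and (hlim.eventually_ge_atTop 2))
  refine ⟨X₀, fun X hX E hE => ?_⟩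
  obtain ⟨h3, h4⟩ := hX₀ X hX
  simp only [Function.comp_apply] at h3
  have h5 : (#(E ∪ range N₀) : ℝ) ≤ #E + N₀ := by
    have h6 := card_union_le E (range N₀)
    rw [card_range] at h6
    exact_mod_cast h6
  have h7 : 2 * ((X : ℝ) / Real.log X ^ (U + 1)) ≤ X / Real.log X ^ U := by
    have h8 : (X : ℝ) / Real.log X ^ U = Real.log X * (X / Real.log X ^ (U + 1)) := by
      rw [pow_succ]
      have : Real.log X ≠ 0 := by linarith
      field_simp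
    rw [h8]
    exact mul_le_mul_of_nonneg_right h4 (by positivity)
  linarith

/-- elementary: the loss of the constants -/
lemma loss (k : ℕ) (η : ℝ) (hη : 0 < η) (hη1 : η ≤ 1) : ∃ θ : ℝ, 0 < θ ∧ θ ≤ 1 / 2 ∧
    (1 - η) * (1 + θ) ^ (k - 1) ≤ (1 - η / 2) * (1 - θ) ^ k := by
  have h1 : Tendsto (fun θ : ℝ => (1 - η / 2) * (1 - θ) ^ k - (1 - η) * (1 + θ) ^ (k - 1)) (𝓝 0) (𝓝 (η / 2)) := by
    have h2 : Continuous (fun θ : ℝ => (1 - η / 2) * (1 - θ) ^ k - (1 - η) * (1 + θ) ^ (k - 1)) := by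
      fun_prop
    have h3 := h2.tendsto 0
    have h4 : (1 - η / 2) * (1 - (0 : ℝ)) ^ k - (1 - η) * (1 + (0 : ℝ)) ^ (k - 1) = η / 2 := by
      simp
      ring
    rw [h4] at h3
    exact h3
  have h2 := h1.eventually_const_le (show (0 : ℝ) < η / 2 by linarith)
  have h3 : ∀ᶠ θ : ℝ in 𝓝[>] 0, (0 : ℝ) ≤ (1 - η / 2) * (1 - θ) ^ k - (1 - η) * (1 + θ) ^ (k - 1) :=
    h2.filter_mono nhdsWithin_le_nhds
  have h4 : ∀ᶠ θ : ℝ in 𝓝[>] 0, θ ≤ 1 / 2 := (eventually_le_nhds (show (0 : ℝ) < 1 / 2 by norm_num)).filter_mono nhdsWithin_le_nhds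
  obtain ⟨θ, ⟨h5, h6⟩, h7⟩ := ((h3.and h4).and eventually_mem_nhdsWithin).exists
  exact ⟨θ, h7, h6, by linarith⟩

theorem primesA (d k : ℕ) (hd : 1 ≤ d) (hk : 1 ≤ k) (hSM : S_SM k) (hCUT : S_CUT k) (hUPW : S_UPW k) (hFMW : S_FMW k)
    (hGA : S_GA k) (η : ℝ) (hη : 0 < η) (hη1 : η ≤ 1) :
    ∃ c B : ℝ, 0 < c ∧ 0 < B ∧ ∀ U : ℕ, ∃ X₀ : ℕ, ∀ X : ℕ, X₀ ≤ X → ∃ E : Finset ℕ, (#E : ℝ) ≤ X / Real.log X ^ U ∧
      ∀ n : ℕ, n ≤ X → n ∉ E → ∀ H : ℕ, B * Real.log n ≤ H → (H : ℝ) ≤ c * (n : ℝ) ^ d →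
      ∃ G ⊆ inj k H, c * (H : ℝ) ^ k ≤ #G ∧
        ∀ h ∈ G, ∀ z : ℕ, ((d + 1) * Real.log n) ^ 2 ≤ z → c ≤ gk (Polynomial.X : ℤ[X]) h z ∧
          (1 - η) * gk (Polynomial.X : ℤ[X]) h z * ((d + 1) * (n : ℝ) ^ d / ((d + 1) * Real.log n) ^ k) ≤
            pat ((n + 1) ^ (d + 1)) (primesBetween (n ^ (d + 1)) ((n + 1) ^ (d + 1))) h := by
  classical
  obtain ⟨θ, hθ, hθ1, hloss⟩ := loss k η hη hη1
  obtain ⟨c, B, hc, hB, N₀, hmain⟩ := powA d k hd hk hSM hCUT hUPW hFMW hGA 1 (1 / 2) (η / 2) one_pos (by norm_num)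
    (by positivity) (by linarith)
  obtain ⟨N₁, hlen⟩ := len d θ hθ
  refine ⟨c, B, hc, hB, fun U => ?_⟩
  obtain ⟨X₁, hX₁⟩ := pnt d hd (U + 1) θ hθ (by linarith)
  obtain ⟨X₂, hX₂⟩ := add_small U (max (max N₀ N₁) 2)
  refine ⟨max X₁ X₂, fun X hX => ?_⟩
  obtain ⟨E, hE1, hE2⟩ := hX₁ X ((le_max_left _ _).trans hX)
  refine ⟨E ∪ range (max (max N₀ N₁) 2), hX₂ X ((le_max_right _ _).trans hX) E hE1, fun n hnX hnE H hH1 hH2 => ?_⟩
  rw [mem_union, mem_range, not_or, not_lt] at hnE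
  obtain ⟨hnE1, hnE2⟩ := hnE
  have hn0 : N₀ ≤ n := ((le_max_left _ _).trans (le_max_left _ _)).trans hnE2
  have hn1 : N₁ ≤ n := ((le_max_right _ _).trans (le_max_left _ _)).trans hnE2
  have hn2 : 2 ≤ n := (le_max_right _ _).trans hnE2
  have hpnt := abs_le.1 (hE2 n (by omega) hnX hnE1)
  obtain ⟨T, hT⟩ : ∃ T, T = primesBetween (n ^ (d + 1)) ((n + 1) ^ (d + 1)) := ⟨_, rfl⟩
  rw [← hT] at hpnt ⊢
  have hlog : 0 < Real.log n := Real.log_pos (by exact_mod_cast (by omega : 1 < n))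
  have hnr : (0 : ℝ) < n := by exact_mod_cast (by omega : 0 < n)
  have hTsub : T ⊆ Ioo (n ^ (d + 1)) ((n + 1) ^ (d + 1)) := by
    rw [hT]
    exact filter_subset _ _
  have hna : n < n ^ (d + 1) := by
    calc n = n ^ 1 := (pow_one n).symm
      _ < n ^ (d + 1) := Nat.pow_lt_pow_right hn2 (by omega)
  have hP0 : 0 < (n : ℝ) ^ d / Real.log n := by positivity
  have hTlow : (1 - θ) * ((n : ℝ) ^ d / Real.log n) ≤ #T := by linarith [hpnt.1]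
  obtain ⟨G, hG1, hG2, hG3⟩ := hmain n hn0 T hTsub (by
      rw [hT]
      exact primes_rough n _ _ hn2 hna) (by
      refine le_trans ?_ hTlow
      exact mul_le_mul_of_nonneg_right (by linarith) hP0.le) H hH1 hH2
  refine ⟨G, hG1, hG2, fun h hh z hz => ?_⟩
  obtain ⟨h1, h2⟩ := hG3 h hh z hz
  refine ⟨h1, le_trans ?_ h2⟩
  obtain ⟨Y, hY⟩ : ∃ Y : ℝ, Y = (((n + 1) ^ (d + 1) - n ^ (d + 1) : ℕ) : ℝ) := ⟨_, rfl⟩
  have hYlen := hlen n hn1
  rw [← hY] at hYlen ⊢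
  have hY0 : 0 < Y := by
    rw [hY]
    have h3 : n ^ (d + 1) < (n + 1) ^ (d + 1) := Nat.pow_lt_pow_left (by omega) (by omega)
    exact_mod_cast (by omega : 0 < (n + 1) ^ (d + 1) - n ^ (d + 1))
  have hg := gk_nonneg (Polynomial.X : ℤ[X]) h z
  -- the comparison of the main terms
  have hmt : (1 - η) * ((d + 1) * (n : ℝ) ^ d / ((d + 1) * Real.log n) ^ k) ≤ (1 - η / 2) * ((#T : ℝ) ^ k / Y ^ (k - 1)) := by
    have h3 : ((1 - θ) * ((n : ℝ) ^ d / Real.log n)) ^ k / ((1 + θ) * ((d + 1) * (n : ℝ) ^ d)) ^ (k - 1) ≤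
        (#T : ℝ) ^ k / Y ^ (k - 1) := by
      apply div_le_div₀ (by positivity) _ (by positivity) _
      · apply pow_le_pow_left₀ _ hTlow
        have : 0 ≤ 1 - θ := by linarith
        positivity
      · exact pow_le_pow_left₀ hY0.le hYlen _
    have h4 : 0 ≤ 1 - η / 2 := by linarith
    refine le_trans ?_ (mul_le_mul_of_nonneg_left h3 h4)
    have h5 : ((1 - θ) * ((n : ℝ) ^ d / Real.log n)) ^ k / ((1 + θ) * ((d + 1) * (n : ℝ) ^ d)) ^ (k - 1) =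
        (1 - θ) ^ k / (1 + θ) ^ (k - 1) * ((d + 1) * (n : ℝ) ^ d / ((d + 1) * Real.log n) ^ k) := by
      obtain ⟨k', rfl⟩ : ∃ k', k = k' + 1 := ⟨k - 1, by omega⟩
      simp only [Nat.add_sub_cancel]
      have e1 : (1 + θ) ≠ 0 := by positivity
      have e2 : ((d : ℝ) + 1) ≠ 0 := by positivity
      have e3 : (n : ℝ) ≠ 0 := hnr.ne'
      have e4 : Real.log n ≠ 0 := hlog.ne'
      obtain ⟨P, hP⟩ : ∃ P : ℝ, P = (n : ℝ) ^ d := ⟨_, rfl⟩
      have e5 : P ≠ 0 := by rw [hP]; positivity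
      rw [← hP]
      rw [mul_pow (1 - θ), div_pow, mul_pow (1 + θ), mul_pow ((d : ℝ) + 1) P, mul_pow ((d : ℝ) + 1)]
      rw [pow_succ P k', pow_succ ((d : ℝ) + 1) k']
      have e6 : P ^ k' ≠ 0 := pow_ne_zero _ e5
      have e7 : ((d : ℝ) + 1) ^ k' ≠ 0 := pow_ne_zero _ e2
      have e8 : (1 + θ) ^ k' ≠ 0 := pow_ne_zero _ e1
      have e9 : Real.log n ^ (k' + 1) ≠ 0 := pow_ne_zero _ e4
      field_simp
    rw [h5, ← mul_assoc]
    apply mul_le_mul_of_nonneg_right _ (by positivity)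
    rw [← mul_div_assoc, le_div_iff₀ (by positivity)]
    exact hloss
  calc (1 - η) * gk (Polynomial.X : ℤ[X]) h z * ((d + 1) * (n : ℝ) ^ d / ((d + 1) * Real.log n) ^ k) =
      gk (Polynomial.X : ℤ[X]) h z * ((1 - η) * ((d + 1) * (n : ℝ) ^ d / ((d + 1) * Real.log n) ^ k)) := by ring
    _ ≤ gk (Polynomial.X : ℤ[X]) h z * ((1 - η / 2) * ((#T : ℝ) ^ k / Y ^ (k - 1))) := mul_le_mul_of_nonneg_left hmt hg
    _ = _ := by ring

theorem primesB (d m : ℕ) (hd : 1 ≤ d) (hSM : S_SM (m + 1)) (hUPW : S_UPW (m + 1)) :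
    ∃ c B : ℝ, 0 < c ∧ 0 < B ∧ ∀ U : ℕ, ∃ X₀ : ℕ, ∀ X : ℕ, X₀ ≤ X → ∃ E : Finset ℕ, (#E : ℝ) ≤ X / Real.log X ^ U ∧
      ∀ n : ℕ, n ≤ X → n ∉ E →
      ∃ G : Finset (Fin (m + 1) → ℕ), c * Real.log n ^ m ≤ #G ∧
        ∀ D ∈ G, StrictMono D ∧ D 0 = 0 ∧ (∀ i, (D i : ℝ) ≤ B * Real.log n) ∧
          c * ((n : ℝ) ^ d / Real.log n ^ (m + 1)) ≤ csc (primesBetween (n ^ (d + 1)) ((n + 1) ^ (d + 1))) D := by
  classical
  obtain ⟨c, B, hc, hB, N₀, hmain⟩ := powB d m hd hSM hUPW 1 (1 / 2) one_pos (by norm_num)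
  refine ⟨c, B, hc, hB, fun U => ?_⟩
  obtain ⟨X₁, hX₁⟩ := pnt d hd (U + 1) (1 / 2) (by norm_num) (by norm_num)
  obtain ⟨X₂, hX₂⟩ := add_small U (max N₀ 2)
  refine ⟨max X₁ X₂, fun X hX => ?_⟩
  obtain ⟨E, hE1, hE2⟩ := hX₁ X ((le_max_left _ _).trans hX)
  refine ⟨E ∪ range (max N₀ 2), hX₂ X ((le_max_right _ _).trans hX) E hE1, fun n hnX hnE => ?_⟩
  rw [mem_union, mem_range, not_or, not_lt] at hnE
  obtain ⟨hnE1, hnE2⟩ := hnE
  have hn0 : N₀ ≤ n := (le_max_left _ _).trans hnE2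
  have hn2 : 2 ≤ n := (le_max_right _ _).trans hnE2
  have hpnt := abs_le.1 (hE2 n (by omega) hnX hnE1)
  have hlog : 0 < Real.log n := Real.log_pos (by exact_mod_cast (by omega : 1 < n))
  have hna : n < n ^ (d + 1) := by
    calc n = n ^ 1 := (pow_one n).symm
      _ < n ^ (d + 1) := Nat.pow_lt_pow_right hn2 (by omega)
  have hP0 : 0 < (n : ℝ) ^ d / Real.log n := by
    have : (0 : ℝ) < n := by exact_mod_cast (by omega : 0 < n)
    positivity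
  exact hmain n hn0 _ (filter_subset _ _) (primes_rough n _ _ hn2 hna) (by linarith [hpnt.1])

end Run7.h462.LW
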