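import Mathlib

/-!
# Project LW (helper462): two counting lemmas (Cauchy-Schwarz)
-/

set_option autoImplicit false

namespace Run7.h462.LW

open Finset

variable {ι : Type*}

/-- the members that carry the sum are many -/
lemma cs (S : Finset ι) (f g : ι → ℝ) (D E C M s : ℝ) (hD : 0 < D) (hE : 0 < E) (hC : 0 < C)
    (hM : 0 < M) (hs : 0 ≤ s) (hfg : ∀ i ∈ S, f i ≤ D * E * g i)
    (hsum : s * (M * E) ≤ ∑ i ∈ S, f i) (hg2 : ∑ i ∈ S, g i ^ 2 ≤ C * M) :
    s ^ 2 / (D ^ 2 * C) * M ≤ #S := by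
  have h1 : s * M ≤ D * ∑ i ∈ S, g i := by
    have h2 : s * (M * E) ≤ ∑ i ∈ S, D * E * g i := hsum.trans (sum_le_sum hfg)
    rw [← mul_sum] at h2
    have h3 : s * M * E ≤ D * (∑ i ∈ S, g i) * E := by
      calc s * M * E = s * (M * E) := by ring
        _ ≤ D * E * ∑ i ∈ S, g i := h2
        _ = D * (∑ i ∈ S, g i) * E := by ring
    exact le_of_mul_le_mul_right h3 hE
  have h4 : (∑ i ∈ S, g i) ^ 2 ≤ #S * ∑ i ∈ S, g i ^ 2 := sq_sum_le_card_mul_sum_sq
  have h5 : (∑ i ∈ S, g i) ^ 2 ≤ #S * (C * M) :=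
    h4.trans (mul_le_mul_of_nonneg_left hg2 (Nat.cast_nonneg _))
  have h6 : (s * M) ^ 2 ≤ (D * ∑ i ∈ S, g i) ^ 2 := by
    apply pow_le_pow_left₀ (by positivity) h1
  have h7 : (s ^ 2 * M) * M ≤ (D ^ 2 * C * #S) * M := by
    calc (s ^ 2 * M) * M = (s * M) ^ 2 := by ring
      _ ≤ (D * ∑ i ∈ S, g i) ^ 2 := h6
      _ = D ^ 2 * (∑ i ∈ S, g i) ^ 2 := by ring
      _ ≤ D ^ 2 * (#S * (C * M)) := by gcongr
      _ = (D ^ 2 * C * #S) * M := by ring
  have h8 := le_of_mul_le_mul_right h7 hM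
  rw [div_mul_eq_mul_div, div_le_iff₀ (by positivity)]
  linarith

open Classical in
lemma count (S : Finset ι) (f g : ι → ℝ) (E D η M C : ℝ) (hE : 0 < E) (hD : 0 < D) (hη : 0 < η)
    (hη1 : η ≤ 1) (hM : 0 < M) (hC : 0 < C) (hg0 : ∀ i ∈ S, 0 ≤ g i)
    (hfg : ∀ i ∈ S, f i ≤ D * E * g i) (hcard : (#S : ℝ) ≤ M)
    (hsum : (1 - η / 12) * (M * E) ≤ ∑ i ∈ S, f i) (hg1 : ∑ i ∈ S, g i ≤ (1 + η / 12) * M)
    (hg2 : ∑ i ∈ S, g i ^ 2 ≤ C * M) :
    (η / 4) ^ 2 / (D ^ 2 * C) * M ≤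
      #(S.filter (fun i => η / (12 * D) ≤ g i ∧ (1 - η / 2) * E * g i ≤ f i)) := by
  set G := S.filter (fun i => η / (12 * D) ≤ g i ∧ (1 - η / 2) * E * g i ≤ f i) with hG
  have hGS : G ⊆ S := filter_subset _ _
  apply cs G f g D E C M (η / 4) hD hE hC hM (by positivity) (fun i hi => hfg i (hGS hi))
  · have h1 : ∑ i ∈ S, f i = ∑ i ∈ G, f i + ∑ i ∈ S \ G, f i := by
      rw [add_comm]
      exact (sum_sdiff hGS).symm
    have h2 : ∀ i ∈ S \ G, f i ≤ D * E * (η / (12 * D)) + (1 - η / 2) * E * g i := by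
      intro i hi
      rw [mem_sdiff] at hi
      obtain ⟨hi1, hi2⟩ := hi
      have h3 : ¬ (η / (12 * D) ≤ g i ∧ (1 - η / 2) * E * g i ≤ f i) := by
        intro h
        exact hi2 (mem_filter.2 ⟨hi1, h⟩)
      have h4 := hg0 i hi1
      have h5 : 0 ≤ (1 - η / 2) * E * g i := by
        have : 0 ≤ 1 - η / 2 := by linarith
        positivity
      have h6 : 0 ≤ D * E * (η / (12 * D)) := by positivity
      by_cases h7 : η / (12 * D) ≤ g i
      · have h8 : f i < (1 - η / 2) * E * g i := by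
          by_contra hcon
          exact h3 ⟨h7, not_lt.1 hcon⟩
        linarith
      · rw [not_le] at h7
        have h9 := hfg i hi1
        have h10 : D * E * g i ≤ D * E * (η / (12 * D)) := mul_le_mul_of_nonneg_left h7.le (by positivity)
        linarith
    have h3 : ∑ i ∈ S \ G, f i ≤ (η / 12) * (M * E) + (1 - η / 2) * ((1 + η / 12) * (M * E)) := by
      refine (sum_le_sum h2).trans ?_
      rw [sum_add_distrib, sum_const, nsmul_eq_mul, ← mul_sum]
      have h4 : (#(S \ G) : ℝ) ≤ M := le_trans (by exact_mod_cast card_le_card sdiff_subset) hcard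
      have h5 : D * E * (η / (12 * D)) = η / 12 * E := by field_simp
      have h6 : ∑ i ∈ S \ G, g i ≤ (1 + η / 12) * M :=
        le_trans (sum_le_sum_of_subset_of_nonneg sdiff_subset (fun i hi _ => hg0 i hi)) hg1
      have h7 : 0 ≤ (1 - η / 2) * E := by
        have : 0 ≤ 1 - η / 2 := by linarith
        positivity
      have h8 := mul_le_mul_of_nonneg_left h6 h7
      have h9 : (#(S \ G) : ℝ) * (η / 12 * E) ≤ M * (η / 12 * E) :=
        mul_le_mul_of_nonneg_right h4 (by positivity)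
      rw [h5]
      nlinarith
    have h4 : η / 4 * (M * E) ≤
        (1 - η / 12) * (M * E) - ((η / 12) * (M * E) + (1 - η / 2) * ((1 + η / 12) * (M * E))) := by
      have hME : 0 < M * E := by positivity
      have : (1 - η / 12) * (M * E) - ((η / 12) * (M * E) + (1 - η / 2) * ((1 + η / 12) * (M * E))) =
          (η / 4 + η ^ 2 / 24) * (M * E) := by ring
      rw [this]
      apply mul_le_mul_of_nonneg_right _ hME.le
      nlinarith
    linarith
  · exact le_trans (sum_le_sum_of_subset_of_nonneg hGS (fun i _ _ => sq_nonneg _)) hg2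

open Classical in
lemma count2 (S : Finset ι) (f g : ι → ℝ) (E D a M C : ℝ) (hE : 0 < E) (hD : 0 < D) (ha : 0 < a)
    (hM : 0 < M) (hC : 0 < C) (hfg : ∀ i ∈ S, f i ≤ D * E * g i) (hcard : (#S : ℝ) ≤ M)
    (hsum : a * (M * E) ≤ ∑ i ∈ S, f i) (hg2 : ∑ i ∈ S, g i ^ 2 ≤ C * M) :
    (a / 2) ^ 2 / (D ^ 2 * C) * M ≤ #(S.filter (fun i => a / 2 * E ≤ f i)) := by
  set G := S.filter (fun i => a / 2 * E ≤ f i) with hG
  have hGS : G ⊆ S := filter_subset _ _
  apply cs G f g D E C M (a / 2) hD hE hC hM (by positivity) (fun i hi => hfg i (hGS hi))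
  · have h1 : ∑ i ∈ S, f i = ∑ i ∈ G, f i + ∑ i ∈ S \ G, f i := by
      rw [add_comm]
      exact (sum_sdiff hGS).symm
    have h2 : ∀ i ∈ S \ G, f i ≤ a / 2 * E := by
      intro i hi
      rw [mem_sdiff] at hi
      by_contra hcon
      exact hi.2 (mem_filter.2 ⟨hi.1, (not_le.1 hcon).le⟩)
    have h3 : ∑ i ∈ S \ G, f i ≤ a / 2 * (M * E) := by
      refine (sum_le_sum h2).trans ?_
      rw [sum_const, nsmul_eq_mul]
      have h4 : (#(S \ G) : ℝ) ≤ M := le_trans (by exact_mod_cast card_le_card sdiff_subset) hcard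
      have h5 : (#(S \ G) : ℝ) * (a / 2 * E) ≤ M * (a / 2 * E) :=
        mul_le_mul_of_nonneg_right h4 (by positivity)
      linarith
    linarith
  · exact le_trans (sum_le_sum_of_subset_of_nonneg hGS (fun i _ _ => sq_nonneg _)) hg2

end Run7.h462.LW
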