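import Pool.Agent.Run7.h462.LW.Stm
import Pool.Agent.Run7.h462.LW.Cnt

/-!
# Project LW (helper462): consecutive elements of a finite set of integers in windows
-/

set_option autoImplicit false

namespace Run7.h462.LW

open Finset
open Run7.h462.KT (inj)

/-- the number of the `t` for which `t + D_0, ..., t + D_m` (`D` increasing, `D_0 = 0`) are consecutive elements of `T` -/
noncomputable def con {m : ℕ} (T : Finset ℤ) (D : Fin (m + 1) → ℕ) : ℕ := by
  classical
  exact #(T.filter (fun t => (∀ i, t + (D i : ℤ) ∈ T) ∧ ∀ u ∈ T, t ≤ u → (∃ i, u ≤ t + (D i : ℤ)) → ∃ i, u = t + (D i : ℤ)))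

open Classical in
/-- the `y` for which `y + h_0 < ... < y + h_m` are consecutive elements of `T` -/
noncomputable def ncon {m : ℕ} (x : ℤ) (Y H : ℕ) (T : Finset ℤ) (h : Fin (m + 1) → ℕ) : Finset ℤ :=
  (Ioc (x - H) (x + Y)).filter (fun y : ℤ => (∀ i, y + (h i : ℤ) ∈ T) ∧ StrictMono h ∧
    ∀ u ∈ T, y + (h 0 : ℤ) ≤ u → (∃ i, u ≤ y + (h i : ℤ)) → ∃ i, u = y + (h i : ℤ))

lemma ncon_le_cnt {m : ℕ} (x : ℤ) (Y H : ℕ) (T : Finset ℤ) (h : Fin (m + 1) → ℕ) :
    #(ncon x Y H T h) ≤ cnt x Y H T h := by
  unfold ncon cnt
  apply card_le_card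
  intro y hy
  rw [mem_filter] at hy ⊢
  exact ⟨hy.1, hy.2.1⟩

lemma ncon_le_con {m : ℕ} (x : ℤ) (Y H : ℕ) (T : Finset ℤ) (h : Fin (m + 1) → ℕ) (hh : StrictMono h) :
    #(ncon x Y H T h) ≤ con T (fun i => h i - h 0) := by
  classical
  unfold ncon con
  have h0 : ∀ i, h 0 ≤ h i := fun i => hh.monotone (Fin.zero_le i)
  have h1 : ∀ i, ((h i - h 0 : ℕ) : ℤ) = (h i : ℤ) - h 0 := fun i => by
    have := h0 i
    omega
  apply card_le_card_of_injOn (fun y => y + (h 0 : ℤ))
  · intro y hy
    rw [mem_coe, mem_filter] at hy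
    obtain ⟨-, hy2, -, hy3⟩ := hy
    simp only [coe_filter, Set.mem_setOf_eq, h1]
    refine ⟨hy2 0, fun i => ?_, fun u hu hu1 hu2 => ?_⟩
    · have e : y + (h 0 : ℤ) + ((h i : ℤ) - h 0) = y + h i := by ring
      rw [e]
      exact hy2 i
    · obtain ⟨i, hi⟩ := hu2
      obtain ⟨j, hj⟩ := hy3 u hu hu1 ⟨i, by linarith⟩
      exact ⟨j, by linarith⟩
  · intro a _ b _ hab
    simp only at hab
    linarith

/-- telescoping -/
lemma tele (a : ℕ → ℤ) (m N : ℕ) : ∑ j ∈ range N, (a (j + m) - a j) = ∑ i ∈ range m, (a (N + i) - a i) := by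
  induction N with
  | zero => simp
  | succ N ih =>
    rw [sum_range_succ, ih]
    have h1 : ∑ i ∈ range m, (a (N + 1 + i) - a (N + i)) = a (N + m) - a N := by
      have := sum_range_sub (fun i => a (N + i)) m
      simp only [Nat.add_zero] at this
      rw [← this]
      apply sum_congr rfl
      intro i _
      rw [show N + 1 + i = N + (i + 1) by ring]
    have h2 : ∑ i ∈ range m, (a (N + 1 + i) - a i) = ∑ i ∈ range m, (a (N + 1 + i) - a (N + i)) + ∑ i ∈ range m, (a (N + i) - a i) := by
      rw [← sum_add_distrib]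
      apply sum_congr rfl
      intro i _
      ring
    rw [h2, h1]
    ring

/-- the consecutive elements fill the windows -/
lemma sum_ncon (m : ℕ) (x : ℤ) (Y H g : ℕ) (T : Finset ℤ) (hT : T ⊆ Ioc x (x + Y)) (hg : g ≤ H) :
    (((#T : ℝ) - m) - (m : ℝ) * Y / (g + 1)) * ((H : ℝ) - g) ≤ ∑ h ∈ inj (m + 1) H, (#(ncon x Y H T h) : ℝ) := by
  classical
  set n := #T with hn
  obtain ⟨a, ha⟩ : ∃ a : ℕ → ℤ, a = fun j => if hj : j < n then T.orderEmbOfFin hn.symm ⟨j, hj⟩ else 0 := ⟨_, rfl⟩
  have ha1 : ∀ j (hj : j < n), a j = T.orderEmbOfFin hn.symm ⟨j, hj⟩ := by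
    intro j hj
    rw [ha]
    simp only [hj, dif_pos]
  have haT : ∀ j, j < n → a j ∈ T := by
    intro j hj
    rw [ha1 j hj]
    exact orderEmbOfFin_mem _ _ _
  have halt : ∀ i j, j < n → i < j → a i < a j := by
    intro i j hj hij
    rw [ha1 i (by omega), ha1 j hj]
    apply (T.orderEmbOfFin hn.symm).strictMono
    exact hij
  have hale : ∀ i j, j < n → i ≤ j → a i ≤ a j := by
    intro i j hj hij
    rcases Nat.lt_or_eq_of_le hij with h | h
    · exact (halt i j hj h).le
    · rw [h]
  have hainj : ∀ i j, i < n → j < n → a i = a j → i = j := by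
    intro i j hi hj hij
    rcases Nat.lt_trichotomy i j with h | h | h
    · have := halt i j hj h
      omega
    · exact h
    · have := halt j i hi h
      omega
  have hasur : ∀ u ∈ T, ∃ j, j < n ∧ a j = u := by
    intro u hu
    have h1 : u ∈ Set.range (T.orderEmbOfFin hn.symm) := by
      rw [range_orderEmbOfFin]
      exact hu
    obtain ⟨j, hj⟩ := h1
    refine ⟨j.1, j.2, ?_⟩
    rw [ha1 j.1 j.2]
    exact hj
  have hIoc : ∀ j, j < n → x < a j ∧ a j ≤ x + Y := fun j hj => mem_Ioc.1 (hT (haT j hj))
  -- the good indices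
  set J := (range (n - m)).filter (fun j => a (j + m) - a j ≤ g) with hJ
  have hJcard : ((n : ℝ) - m) - (m : ℝ) * Y / (g + 1) ≤ #J := by
    rcases Nat.lt_or_ge n m with hnm | hnm
    · have h1 : (n : ℝ) < m := by exact_mod_cast hnm
      have h2 : 0 ≤ (m : ℝ) * Y / (g + 1) := by positivity
      have h3 : (0 : ℝ) ≤ #J := Nat.cast_nonneg _
      linarith
    · have h1 : #J + #((range (n - m)).filter (fun j => ¬ (a (j + m) - a j ≤ g))) = n - m := by
        rw [hJ, card_filter_add_card_filter_not, card_range]
      have h2 : ((g : ℝ) + 1) * #((range (n - m)).filter (fun j => ¬ (a (j + m) - a j ≤ g))) ≤ (m : ℝ) * Y := by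
        have h3 : ((g : ℤ) + 1) * #((range (n - m)).filter (fun j => ¬ (a (j + m) - a j ≤ g))) ≤ (m : ℤ) * Y := by
          calc ((g : ℤ) + 1) * #((range (n - m)).filter (fun j => ¬ (a (j + m) - a j ≤ g))) =
              ∑ _j ∈ (range (n - m)).filter (fun j => ¬ (a (j + m) - a j ≤ g)), ((g : ℤ) + 1) := by
                rw [sum_const, nsmul_eq_mul]
                ring
            _ ≤ ∑ j ∈ (range (n - m)).filter (fun j => ¬ (a (j + m) - a j ≤ g)), (a (j + m) - a j) := by
                apply sum_le_sum
                intro j hj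
                rw [mem_filter] at hj
                omega
            _ ≤ ∑ j ∈ range (n - m), (a (j + m) - a j) := by
                apply sum_le_sum_of_subset_of_nonneg (filter_subset _ _)
                intro j hj _
                rw [mem_range] at hj
                have := hale j (j + m) (by omega) (by omega)
                linarith
            _ = ∑ i ∈ range m, (a (n - m + i) - a i) := tele a m (n - m)
            _ ≤ ∑ _i ∈ range m, (Y : ℤ) := by
                apply sum_le_sum
                intro i hi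
                rw [mem_range] at hi
                have h4 := hIoc (n - m + i) (by omega)
                have h5 := hIoc i (by omega)
                linarith
            _ = (m : ℤ) * Y := by rw [sum_const, card_range, nsmul_eq_mul]
        exact_mod_cast h3
      have h3 : (#((range (n - m)).filter (fun j => ¬ (a (j + m) - a j ≤ g))) : ℝ) ≤ (m : ℝ) * Y / (g + 1) := by
        rw [le_div_iff₀ (by positivity)]
        linarith
      have h4 : (#J : ℝ) + #((range (n - m)).filter (fun j => ¬ (a (j + m) - a j ≤ g))) = (n : ℝ) - m := by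
        have : ((#J + #((range (n - m)).filter (fun j => ¬ (a (j + m) - a j ≤ g))) : ℕ) : ℝ) = ((n - m : ℕ) : ℝ) := by
          rw [h1]
        rw [Nat.cast_sub hnm] at this
        push_cast at this
        exact this
      linarith
  -- the injection
  have hcard : #(J ×ˢ range (H - g)) ≤ #((inj (m + 1) H).sigma (fun h => ncon x Y H T h)) := by
    apply card_le_card_of_injOn
      (fun q : ℕ × ℕ => (⟨fun i => q.2 + (a (q.1 + i) - a q.1).toNat, a q.1 - q.2⟩ : (_ : Fin (m + 1) → ℕ) × ℤ))
    · rintro ⟨j, s⟩ hq
      rw [mem_coe, mem_product, hJ, mem_filter, mem_range, mem_range] at hq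
      obtain ⟨⟨hj, hgap⟩, hs⟩ := hq
      simp only at hj hgap hs
      have hji : ∀ i : Fin (m + 1), j + (i : ℕ) < n := fun i => by have := i.2; omega
      have hnn : ∀ i : Fin (m + 1), a j ≤ a (j + i) := fun i => hale j (j + i) (hji i) (by omega)
      have hub : ∀ i : Fin (m + 1), a (j + i) ≤ a (j + m) := fun i => hale (j + i) (j + m) (by omega) (by have := i.2; omega)
      have hto : ∀ i : Fin (m + 1), (((a (j + i) - a j).toNat : ℕ) : ℤ) = a (j + i) - a j := fun i =>
        Int.toNat_of_nonneg (by have := hnn i; omega)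
      have hmono : StrictMono (fun i : Fin (m + 1) => s + (a (j + i) - a j).toNat) := by
        intro i i' hii
        simp only
        have h1 := halt (j + i) (j + i') (hji i') (by have := Fin.lt_def.1 hii; omega)
        have h2 := hto i
        have h3 := hto i'
        omega
      have hyi : ∀ i : Fin (m + 1), a j - (s : ℤ) + ((s + (a (j + i) - a j).toNat : ℕ) : ℤ) = a (j + i) := by
        intro i
        have := hto i
        push_cast
        omega
      rw [mem_coe, mem_sigma]
      constructor
      · simp only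
        unfold Run7.h462.KT.inj
        rw [mem_filter, Fintype.mem_piFinset]
        refine ⟨fun i => ?_, hmono.injective⟩
        rw [mem_range]
        have h1 := hto i
        have h2 := hub i
        omega
      · simp only
        unfold ncon
        rw [mem_filter, mem_Ioc]
        have h5 := hIoc j (by omega)
        refine ⟨⟨by omega, by omega⟩, fun i => ?_, hmono, fun u hu hu1 hu2 => ?_⟩
        · rw [hyi i]
          exact haT _ (hji i)
        · obtain ⟨i, hi⟩ := hu2
          rw [hyi] at hu1 hi
          obtain ⟨l, hl1, hl2⟩ := hasur u hu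
          rw [← hl2] at hu1 hi ⊢
          have e0 : j + ((0 : Fin (m + 1)) : ℕ) = j := by simp
          rw [e0] at hu1
          have h6 : j ≤ l := by
            by_contra hcon
            rw [not_le] at hcon
            have := halt l j (by omega) hcon
            omega
          have h7 : l ≤ j + i := by
            by_contra hcon
            rw [not_le] at hcon
            have := halt (j + i) l hl1 hcon
            omega
          refine ⟨⟨l - j, by have := i.2; omega⟩, ?_⟩
          rw [hyi]
          simp only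
          rw [show j + (l - j) = l by omega]
    · rintro ⟨j, s⟩ hq ⟨j', s'⟩ hq' heq
      rw [mem_coe, mem_product, hJ, mem_filter, mem_range, mem_range] at hq hq'
      simp only at hq hq'
      simp only [Sigma.mk.injEq, heq_eq_eq] at heq
      obtain ⟨h1, h2⟩ := heq
      have h3 := congrFun h1 0
      simp only [Fin.val_zero, Nat.add_zero, sub_self, Int.toNat_zero] at h3
      have h4 : a j = a j' := by
        rw [h3] at h2
        omega
      rw [h3, hainj j j' (by omega) (by omega) h4]
  rw [card_product, card_range, card_sigma] at hcard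
  have h9 : (#J : ℝ) * ((H : ℝ) - g) ≤ ∑ h ∈ inj (m + 1) H, (#(ncon x Y H T h) : ℝ) := by
    have h10 : ((#J * (H - g) : ℕ) : ℝ) ≤ ((∑ h ∈ inj (m + 1) H, #(ncon x Y H T h) : ℕ) : ℝ) := by
      exact_mod_cast hcard
    rw [Nat.cast_mul, Nat.cast_sub hg, Nat.cast_sum] at h10
    exact h10
  refine le_trans ?_ h9
  apply mul_le_mul_of_nonneg_right hJcard
  have : (g : ℝ) ≤ H := by exact_mod_cast hg
  linarith

end Run7.h462.LW
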