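import Pool.Agent.Run7.h462.LW.Stm
import Pool.Agent.Run7.h462.LW.Cnt
import Pool.Agent.Run7.h462.KT.Bas

/-!
# Project LW (helper462), assembly A: a positive proportion of all tuples
-/

set_option autoImplicit false

namespace Run7.h462.LW

open Finset Filter Topology
open Run7.h462.KT (gk inj ov gk_nonneg S_GA)
open scoped Polynomial

lemma card_inj_le (k H : ℕ) : (#(inj k H) : ℝ) ≤ (H : ℝ) ^ k := by
  have h1 : #(inj k H) ≤ H ^ k := by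
    unfold Run7.h462.KT.inj
    refine (card_filter_le _ _).trans ?_
    rw [Fintype.card_piFinset]
    simp
  exact_mod_cast h1

/-- the conditions on the size of `Y` for the cut -/
lemma cut_cond (k : ℕ) (θ : ℝ) (hθ : 0 < θ) : ∃ Y₀ : ℕ, ∀ Y : ℕ, Y₀ ≤ Y → ∀ H : ℕ, H ≤ Y →
    4 * k ≤ ⌊Real.log Y ^ 2⌋₊ ∧ 1 ≤ ⌊Real.log Y ^ 2⌋₊ ∧
    2 * ((k : ℝ) ^ 2 / ⌊Real.log Y ^ 2⌋₊ + 4 * (k : ℝ) ^ 3 * Real.log (H + 1 : ℕ) / ⌊Real.log Y ^ 2⌋₊) ≤ θ := by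
  have hlim : Tendsto (fun Y : ℕ => Real.log Y) atTop atTop :=
    Real.tendsto_log_atTop.comp tendsto_natCast_atTop_atTop
  obtain ⟨K, hK⟩ : ∃ K : ℝ, K = 4 * k + 2 + 4 * k ^ 2 / θ + 32 * (k : ℝ) ^ 3 / θ := ⟨_, rfl⟩
  obtain ⟨Y₀, hY₀⟩ := eventually_atTop.1 (hlim.eventually_ge_atTop K)
  refine ⟨max Y₀ 2, fun Y hY H hH => ?_⟩
  have hL := hY₀ Y ((le_max_left _ _).trans hY)
  have hY2 : 2 ≤ Y := (le_max_right _ _).trans hY
  obtain ⟨L, hLd⟩ : ∃ L : ℝ, L = Real.log Y := ⟨_, rfl⟩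
  rw [← hLd] at hL ⊢
  have hkn : (0 : ℝ) ≤ k := Nat.cast_nonneg k
  have e1 : 0 ≤ 4 * (k : ℝ) ^ 2 / θ := by positivity
  have e2 : 0 ≤ 32 * (k : ℝ) ^ 3 / θ := by positivity
  have hL2 : 2 ≤ L := by rw [hK] at hL; linarith
  have hL4 : 4 * (k : ℝ) + 2 ≤ L := by rw [hK] at hL; linarith
  obtain ⟨w, hw⟩ : ∃ w : ℕ, w = ⌊L ^ 2⌋₊ := ⟨_, rfl⟩
  rw [← hw]
  have hw1 : L ^ 2 - 1 < w := by rw [hw]; exact Nat.sub_one_lt_floor _
  have hw2 : L ^ 2 / 2 ≤ w := by nlinarith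
  have hwL : L ≤ w := by nlinarith
  have hw0 : (0 : ℝ) < w := by linarith
  refine ⟨?_, ?_, ?_⟩
  · have : ((4 * k : ℕ) : ℝ) ≤ w := by push_cast; linarith
    exact_mod_cast this
  · have : ((1 : ℕ) : ℝ) ≤ w := by push_cast; linarith
    exact_mod_cast this
  · have hlogH : Real.log (H + 1 : ℕ) ≤ 2 * L := by
      have h1 : ((H + 1 : ℕ) : ℝ) ≤ (Y : ℝ) ^ 2 := by
        have h2 : H + 1 ≤ Y ^ 2 := by nlinarith
        exact_mod_cast h2
      have h3 := Real.log_le_log (by positivity) h1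
      rw [Real.log_pow, ← hLd] at h3
      push_cast at h3 ⊢
      linarith
    have h1 : 4 * (k : ℝ) ^ 2 ≤ θ * L := by
      have h2 : 4 * (k : ℝ) ^ 2 / θ ≤ L := by rw [hK] at hL; linarith
      rw [div_le_iff₀ hθ] at h2
      linarith
    have h2 : 32 * (k : ℝ) ^ 3 ≤ θ * L := by
      have h3 : 32 * (k : ℝ) ^ 3 / θ ≤ L := by rw [hK] at hL; linarith
      rw [div_le_iff₀ hθ] at h3
      linarith
    rw [← add_div, mul_div_assoc', div_le_iff₀ hw0]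
    have h3 : 4 * (k : ℝ) ^ 3 * Real.log (H + 1 : ℕ) ≤ 4 * (k : ℝ) ^ 3 * (2 * L) :=
      mul_le_mul_of_nonneg_left hlogH (by positivity)
    have h4 : 16 * (k : ℝ) ^ 3 * L ≤ θ * L / 2 * L := by
      have : 16 * (k : ℝ) ^ 3 ≤ θ * L / 2 := by linarith
      exact mul_le_mul_of_nonneg_right this (by linarith)
    have h5 : 2 * (k : ℝ) ^ 2 ≤ θ * L / 2 := by linarith
    have h6 : θ * L ≤ θ * (L ^ 2 / 2) := by
      apply mul_le_mul_of_nonneg_left _ hθ.le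
      nlinarith
    have h7 : θ * (L ^ 2 / 2) ≤ θ * w := mul_le_mul_of_nonneg_left hw2 hθ.le
    have h8 : θ * (L ^ 2 - 1) ≤ θ * w := mul_le_mul_of_nonneg_left hw1.le hθ.le
    nlinarith

/-- **A**. `T` a set of integers in `(x, x + Y]` without prime factors `≤ Y^κ` -/
theorem finA (k : ℕ) (hk : 1 ≤ k) (hSM : S_SM k) (hCUT : S_CUT k) (hUPW : S_UPW k) (hFMW : S_FMW k) (hGA : S_GA k)
    (κ δ η : ℝ) (hκ : 0 < κ) (hδ : 0 < δ) (hη : 0 < η) (hη1 : η ≤ 1) :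
    ∃ c B : ℝ, 0 < c ∧ 0 < B ∧ ∃ Y₀ : ℕ, ∀ Y : ℕ, Y₀ ≤ Y → ∀ x : ℤ, ∀ T : Finset ℤ, T ⊆ Ioc x (x + Y) →
      Rgh κ Y T → δ * (Y / Real.log Y) ≤ #T → ∀ H : ℕ, B * Real.log Y ≤ H → (H : ℝ) ≤ c * Y →
      ∃ G : Finset (Fin k → ℕ), G ⊆ inj k H ∧ c * (H : ℝ) ^ k ≤ #G ∧
        ∀ h ∈ G, ∀ z : ℕ, Real.log Y ^ 2 ≤ z → c ≤ gk (Polynomial.X : ℤ[X]) h z ∧
          (1 - η) * gk (Polynomial.X : ℤ[X]) h z * ((#T : ℝ) ^ k / (Y : ℝ) ^ (k - 1)) ≤ cnt x Y H T h := by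
  classical
  obtain ⟨C, hC1, hC⟩ := hSM
  obtain ⟨D, hD1, Y1, hD⟩ := hUPW κ hκ
  obtain ⟨B, c₀, hB, hc₀, hc₀1, hF⟩ := hFMW (η / 12) δ (by positivity) hδ
  obtain ⟨H₀, w₀, hG⟩ := hGA (η / 12) (by positivity)
  obtain ⟨Y2, hY2⟩ := cut_cond k (η / 2) (by positivity)
  have hlim : Tendsto (fun Y : ℕ => Real.log Y) atTop atTop :=
    Real.tendsto_log_atTop.comp tendsto_natCast_atTop_atTop
  obtain ⟨Y3, hY3⟩ := eventually_atTop.1 (hlim.eventually_ge_atTop (H₀ / B + w₀ + 2))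
  obtain ⟨D', hD'⟩ : ∃ D' : ℝ, D' = D / δ ^ k := ⟨_, rfl⟩
  have hδk : 0 < δ ^ k := by positivity
  have hD'0 : 0 < D' := by rw [hD']; positivity
  obtain ⟨c, hc⟩ : ∃ c : ℝ, c = min c₀ (min ((η / 4) ^ 2 / (D' ^ 2 * C)) (η / (24 * D'))) := ⟨_, rfl⟩
  have hC0 : 0 < C := by linarith
  have hc0 : 0 < c := by
    rw [hc]
    refine lt_min hc₀ (lt_min (by positivity) (by positivity))
  have hcc₀ : c ≤ c₀ := by rw [hc]; exact min_le_left _ _
  have hcc1 : c ≤ (η / 4) ^ 2 / (D' ^ 2 * C) := by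
    rw [hc]; exact (min_le_right _ _).trans (min_le_left _ _)
  have hcc2 : c ≤ η / (24 * D') := by
    rw [hc]; exact (min_le_right _ _).trans (min_le_right _ _)
  refine ⟨c, B, hc0, hB, max (max Y1 Y2) (max Y3 2), fun Y hY x T hT hR hdens H hH1 hH2 => ?_⟩
  have hYY1 : Y1 ≤ Y := ((le_max_left _ _).trans (le_max_left _ _)).trans hY
  have hYY2 : Y2 ≤ Y := ((le_max_right _ _).trans (le_max_left _ _)).trans hY
  have hYY3 : Y3 ≤ Y := ((le_max_left _ _).trans (le_max_right _ _)).trans hY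
  have hYY4 : 2 ≤ Y := ((le_max_right _ _).trans (le_max_right _ _)).trans hY
  have hL := hY3 Y hYY3
  obtain ⟨L, hLd⟩ : ∃ L : ℝ, L = Real.log Y := ⟨_, rfl⟩
  rw [← hLd] at hL hH1 hdens
  have hHB : 0 ≤ (H₀ : ℝ) / B := by positivity
  have hw₀' : (0 : ℝ) ≤ w₀ := Nat.cast_nonneg _
  have hL2 : 2 ≤ L := by linarith
  have hL0 : 0 < L := by linarith
  have hY0 : (0 : ℝ) < Y := by exact_mod_cast (by omega : 0 < Y)
  have hHc₀ : (H : ℝ) ≤ c₀ * Y := hH2.trans (mul_le_mul_of_nonneg_right hcc₀ hY0.le)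
  have hHY : H ≤ Y := by
    have : (H : ℝ) ≤ Y := hHc₀.trans (by nlinarith)
    exact_mod_cast this
  have hHH₀ : H₀ ≤ H := by
    have h1 : (H₀ : ℝ) / B ≤ L := by linarith
    rw [div_le_iff₀ hB] at h1
    have : (H₀ : ℝ) ≤ H := by linarith
    exact_mod_cast this
  have hH0 : (0 : ℝ) < H := lt_of_lt_of_le (by positivity) hH1
  obtain ⟨w, hwd⟩ : ∃ w : ℕ, w = ⌊L ^ 2⌋₊ := ⟨_, rfl⟩
  have hww₀ : w₀ ≤ w := by
    have h1 : L ^ 2 - 1 < w := by rw [hwd]; exact Nat.sub_one_lt_floor _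
    have : (w₀ : ℝ) ≤ w := by nlinarith
    exact_mod_cast this
  have hcut := hY2 Y hYY2 H hHY
  rw [← hLd, ← hwd] at hcut
  obtain ⟨hcut1, hcut2, hcut3⟩ := hcut
  obtain ⟨E, hE⟩ : ∃ E : ℝ, E = (#T : ℝ) ^ k / (Y : ℝ) ^ (k - 1) := ⟨_, rfl⟩
  have hYL : 0 < (Y : ℝ) / L := by positivity
  have hT0 : (0 : ℝ) < #T := lt_of_lt_of_le (by positivity) hdens
  have hE0 : 0 < E := by rw [hE]; positivity
  have hEge : δ ^ k * (Y / L ^ k) ≤ E := by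
    rw [hE, le_div_iff₀ (by positivity)]
    have h1 : (δ * (Y / L)) ^ k ≤ (#T : ℝ) ^ k := pow_le_pow_left₀ (by positivity) hdens k
    refine le_trans ?_ h1
    rw [mul_pow, div_pow, mul_assoc]
    apply mul_le_mul_of_nonneg_left _ hδk.le
    rw [div_mul_eq_mul_div]
    apply div_le_div_of_nonneg_right _ (by positivity)
    rw [← pow_succ', Nat.sub_add_cancel hk]
  have hup : ∀ h ∈ inj k H, (cnt x Y H T h : ℝ) ≤ D' * E * gk (Polynomial.X : ℤ[X]) h w := by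
    intro h hh
    have h1 := hD Y hYY1 x T hT hR H hHY h hh
    rw [← hLd, ← hwd] at h1
    refine h1.trans ?_
    apply mul_le_mul_of_nonneg_right _ (gk_nonneg _ _ _)
    rw [hD']
    calc D * (Y / L ^ k) = D / δ ^ k * (δ ^ k * (Y / L ^ k)) := by field_simp
      _ ≤ D / δ ^ k * E := by gcongr
  have hcnt := count (inj k H) (fun h => (cnt x Y H T h : ℝ)) (fun h => gk (Polynomial.X : ℤ[X]) h w)
    E D' η ((H : ℝ) ^ k) C hE0 hD'0 hη hη1 (by positivity) hC0 (fun h _ => gk_nonneg _ _ _) hup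
    (card_inj_le k H) (by
      rw [hE]
      exact hF Y hYY4 x T hT (by rw [← hLd]; exact hdens) H (by rw [← hLd]; exact hH1) hHc₀)
    (hG H hHH₀ w hww₀) (hC w hcut2 H)
  refine ⟨_, filter_subset _ _, le_trans ?_ hcnt, ?_⟩
  · exact mul_le_mul_of_nonneg_right hcc1 (by positivity)
  · intro h hh z hz
    rw [mem_filter] at hh
    obtain ⟨hh1, hh2, hh3⟩ := hh
    rw [← hLd] at hz
    have hwz : w ≤ z := by
      rw [hwd]
      exact Nat.floor_le_of_le hz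
    have h1 := hCUT (η / 2) (by positivity) (by linarith) H w z hcut1 hcut2 hwz hcut3 h hh1
    have h2 := abs_le.1 h1
    obtain ⟨gz, hgz⟩ : ∃ gz : ℝ, gz = gk (Polynomial.X : ℤ[X]) h z := ⟨_, rfl⟩
    obtain ⟨gw, hgw⟩ : ∃ gw : ℝ, gw = gk (Polynomial.X : ℤ[X]) h w := ⟨_, rfl⟩
    rw [← hgw] at hh2 hh3 h2
    rw [← hgz] at h2 ⊢
    rw [← hE]
    have hgw0 : 0 < gw := lt_of_lt_of_le (by positivity) hh2
    constructor
    · refine hcc2.trans ?_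
      have h3 : gw / 2 ≤ gz := by nlinarith [h2.1]
      have h4 : η / (24 * D') = (η / (12 * D')) / 2 := by field_simp; ring
      rw [h4]
      linarith
    · refine le_trans ?_ hh3
      have h3 : gz ≤ (1 + η / 2) * gw := by linarith [h2.2]
      have h4 : (1 - η) * gz ≤ (1 - η / 2) * gw := by
        have h5 : (1 - η) * gz ≤ (1 - η) * ((1 + η / 2) * gw) :=
          mul_le_mul_of_nonneg_left h3 (by linarith)
        have h6 : (1 - η) * ((1 + η / 2) * gw) ≤ (1 - η / 2) * gw := by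
          have : (1 - η) * ((1 + η / 2) * gw) = (1 - η / 2) * gw - η ^ 2 / 2 * gw := by ring
          rw [this]
          have : 0 ≤ η ^ 2 / 2 * gw := by positivity
          linarith
        linarith
      calc (1 - η) * gz * E ≤ (1 - η / 2) * gw * E := mul_le_mul_of_nonneg_right h4 hE0.le
        _ = (1 - η / 2) * E * gw := by ring

end Run7.h462.LW
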