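import Pool.Agent.Run7.h462.LW.Csc
import Pool.Agent.Run7.h462.LW.FinA

/-!
# Project LW (helper462), assembly B: consecutive elements with prescribed differences
-/

set_option autoImplicit false

namespace Run7.h462.LW

open Finset Filter Topology
open Run7.h462.KT (gk inj ov gk_nonneg)
open scoped Polynomial

/-- **B**. `T` a set of integers in `(x, x + Y]` without prime factors `≤ Y^κ` -/
theorem finB (m : ℕ) (hSM : S_SM (m + 1)) (hUPW : S_UPW (m + 1)) (κ δ : ℝ) (hκ : 0 < κ) (hδ : 0 < δ) :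
    ∃ c B : ℝ, 0 < c ∧ 0 < B ∧ ∃ Y₀ : ℕ, ∀ Y : ℕ, Y₀ ≤ Y → ∀ x : ℤ, ∀ T : Finset ℤ, T ⊆ Ioc x (x + Y) →
      Rgh κ Y T → δ * (Y / Real.log Y) ≤ #T →
      ∃ G : Finset (Fin (m + 1) → ℕ), c * Real.log Y ^ m ≤ #G ∧
        ∀ D ∈ G, StrictMono D ∧ D 0 = 0 ∧ (∀ i, (D i : ℝ) ≤ B * Real.log Y) ∧
          c * (Y / Real.log Y ^ (m + 1)) ≤ con T D := by
  classical
  obtain ⟨C, hC1, hC⟩ := hSM
  obtain ⟨D, hD1, Y1, hD⟩ := hUPW κ hκ
  obtain ⟨B, hB⟩ : ∃ B : ℝ, B = 8 * m / δ + 1 := ⟨_, rfl⟩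
  have hmn : (0 : ℝ) ≤ m := Nat.cast_nonneg m
  have hB1 : 1 ≤ B := by
    rw [hB]
    have : 0 ≤ 8 * (m : ℝ) / δ := by positivity
    linarith
  have hB0 : 0 < B := by linarith
  have hlim : Tendsto (fun Y : ℕ => Real.log Y) atTop atTop :=
    Real.tendsto_log_atTop.comp tendsto_natCast_atTop_atTop
  have hlim2 : Tendsto (fun Y : ℕ => (Y : ℝ) / Real.log Y) atTop atTop := by
    have h1 : Tendsto (fun x : ℝ => x / Real.log x) atTop atTop := by
      have h2 := Real.isLittleO_log_id_atTop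
      have h3 := h2.tendsto_div_nhds_zero
      have h4 : Tendsto (fun x : ℝ => Real.log x / x) atTop (𝓝[>] 0) := by
        rw [tendsto_nhdsWithin_iff]
        refine ⟨h3, ?_⟩
        filter_upwards [eventually_gt_atTop (1 : ℝ)] with x hx
        exact div_pos (Real.log_pos hx) (by linarith)
      have h5 := h4.inv_tendsto_nhdsGT_zero
      refine h5.congr fun x => ?_
      simp only [Pi.inv_apply, inv_div]
    exact h1.comp tendsto_natCast_atTop_atTop
  obtain ⟨Y2, hY2⟩ := eventually_atTop.1 (hlim2.eventually_ge_atTop (4 * m / δ))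
  obtain ⟨Y3, hY3⟩ := eventually_atTop.1 (hlim.eventually_ge_atTop 2)
  obtain ⟨Y4, hY4⟩ := eventually_atTop.1 (hlim2.eventually_ge_atTop (2 * B))
  obtain ⟨a, ha⟩ : ∃ a : ℝ, a = (δ / 4) / (2 * B) ^ m := ⟨_, rfl⟩
  have ha0 : 0 < a := by rw [ha]; positivity
  have hC0 : 0 < C := by linarith
  have hD0 : 0 < D := by linarith
  obtain ⟨c, hc⟩ : ∃ c : ℝ, c = min (a / 2) ((a / 2) ^ 2 / (D ^ 2 * C)) := ⟨_, rfl⟩
  have hc0 : 0 < c := by
    rw [hc]
    exact lt_min (by positivity) (by positivity)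
  have hcc1 : c ≤ a / 2 := by rw [hc]; exact min_le_left _ _
  have hcc2 : c ≤ (a / 2) ^ 2 / (D ^ 2 * C) := by rw [hc]; exact min_le_right _ _
  refine ⟨c, B, hc0, hB0, max (max Y1 Y2) (max Y3 Y4), fun Y hY x T hT hR hdens => ?_⟩
  have hYY1 : Y1 ≤ Y := ((le_max_left _ _).trans (le_max_left _ _)).trans hY
  have hYY2 : Y2 ≤ Y := ((le_max_right _ _).trans (le_max_left _ _)).trans hY
  have hYY3 : Y3 ≤ Y := ((le_max_left _ _).trans (le_max_right _ _)).trans hY
  have hYY4 : Y4 ≤ Y := ((le_max_right _ _).trans (le_max_right _ _)).trans hY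
  have hL2 := hY3 Y hYY3
  have hYm := hY2 Y hYY2
  have hYB := hY4 Y hYY4
  obtain ⟨L, hLd⟩ : ∃ L : ℝ, L = Real.log Y := ⟨_, rfl⟩
  rw [← hLd] at hL2 hYm hYB hdens ⊢
  have hL0 : 0 < L := by linarith
  have hY0 : (0 : ℝ) < Y := by
    rcases Nat.eq_zero_or_pos Y with h | h
    · rw [h] at hLd
      simp at hLd
      linarith
    · exact_mod_cast h
  -- the window
  obtain ⟨H, hH⟩ : ∃ H : ℕ, H = ⌈B * L⌉₊ := ⟨_, rfl⟩
  have hH1 : B * L ≤ H := by rw [hH]; exact Nat.le_ceil _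
  have hH2 : (H : ℝ) < B * L + 1 := by rw [hH]; exact Nat.ceil_lt_add_one (by positivity)
  have hH3 : (H : ℝ) ≤ 2 * B * L := by nlinarith
  have hH0 : (0 : ℝ) < H := lt_of_lt_of_le (by positivity) hH1
  have hHY : H ≤ Y := by
    have h1 : 2 * B * L ≤ Y := by
      rw [le_div_iff₀ hL0] at hYB
      exact hYB
    have : (H : ℝ) ≤ Y := by linarith
    exact_mod_cast this
  obtain ⟨w, hwd⟩ : ∃ w : ℕ, w = ⌊L ^ 2⌋₊ := ⟨_, rfl⟩
  have hw1 : 1 ≤ w := by
    have h1 : L ^ 2 - 1 < w := by rw [hwd]; exact Nat.sub_one_lt_floor _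
    have : ((1 : ℕ) : ℝ) ≤ w := by push_cast; nlinarith
    exact_mod_cast this
  have hYL : 0 < (Y : ℝ) / L := by positivity
  -- the lower bound for the sum
  obtain ⟨g, hg⟩ : ∃ g : ℕ, g = H / 2 := ⟨_, rfl⟩
  have hgH : g ≤ H := by omega
  have hg1 : (H : ℝ) / 2 ≤ (g : ℝ) + 1 := by
    have : H ≤ 2 * (g + 1) := by omega
    have h2 : (H : ℝ) ≤ 2 * ((g : ℝ) + 1) := by exact_mod_cast this
    linarith
  have hg2 : (g : ℝ) ≤ (H : ℝ) / 2 := by
    have : 2 * g ≤ H := by omega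
    have h2 : 2 * (g : ℝ) ≤ H := by exact_mod_cast this
    linarith
  have hsum := sum_ncon m x Y H g T hT hgH
  have hJ : δ / 2 * (Y / L) ≤ ((#T : ℝ) - m) - (m : ℝ) * Y / (g + 1) := by
    have h1 : (m : ℝ) ≤ δ / 4 * (Y / L) := by
      rw [div_le_iff₀ hδ] at hYm
      linarith
    have h2 : (m : ℝ) * Y / (g + 1) ≤ δ / 4 * (Y / L) := by
      have h3 : (m : ℝ) * Y / (g + 1) ≤ (m : ℝ) * Y / (B * L / 2) := by
        apply div_le_div_of_nonneg_left (by positivity) (by positivity)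
        linarith
      refine h3.trans ?_
      rw [div_le_iff₀ (by positivity)]
      have h4 : δ / 4 * (Y / L) * (B * L / 2) = δ * B / 8 * Y := by field_simp; ring
      rw [h4]
      apply mul_le_mul_of_nonneg_right _ hY0.le
      have h5 : δ * B = 8 * m + δ := by rw [hB]; field_simp
      rw [h5]
      linarith
    linarith
  obtain ⟨E, hE⟩ : ∃ E : ℝ, E = Y / L ^ (m + 1) := ⟨_, rfl⟩
  have hE0 : 0 < E := by rw [hE]; positivity
  have hsum2 : a * ((H : ℝ) ^ (m + 1) * E) ≤ ∑ h ∈ inj (m + 1) H, (#(ncon x Y H T h) : ℝ) := by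
    refine le_trans ?_ hsum
    have h1 : δ / 2 * (Y / L) * (H / 2) ≤ (((#T : ℝ) - m) - (m : ℝ) * Y / (g + 1)) * ((H : ℝ) - g) := by
      apply mul_le_mul hJ (by linarith) (by positivity)
      exact le_trans (by positivity) hJ
    refine le_trans ?_ h1
    have h2 : (H : ℝ) ^ m ≤ (2 * B) ^ m * L ^ m := by
      rw [← mul_pow]
      exact pow_le_pow_left₀ hH0.le (by linarith) m
    have h3 : a * (2 * B) ^ m = δ / 4 := by rw [ha]; field_simp
    calc a * ((H : ℝ) ^ (m + 1) * E) = (a * (H : ℝ) ^ m) * (H * E) := by ring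
      _ ≤ (a * ((2 * B) ^ m * L ^ m)) * (H * E) := by gcongr
      _ = (a * (2 * B) ^ m) * (L ^ m * (H * E)) := by ring
      _ = δ / 4 * (L ^ m * (H * E)) := by rw [h3]
      _ = δ / 2 * (Y / L) * (H / 2) := by
          rw [hE]
          field_simp
          ring
  have hup : ∀ h ∈ inj (m + 1) H, (#(ncon x Y H T h) : ℝ) ≤ D * E * gk (Polynomial.X : ℤ[X]) h w := by
    intro h hh
    have h1 := hD Y hYY1 x T hT hR H hHY h hh
    rw [← hLd, ← hwd, ← hE] at h1
    refine le_trans ?_ h1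
    exact_mod_cast ncon_le_cnt x Y H T h
  have hcnt := count2 (inj (m + 1) H) (fun h => (#(ncon x Y H T h) : ℝ))
    (fun h => gk (Polynomial.X : ℤ[X]) h w) E D a ((H : ℝ) ^ (m + 1)) C hE0 hD0 ha0 (by positivity) hC0 hup
    (card_inj_le (m + 1) H) hsum2 (hC w hw1 H)
  obtain ⟨G, hG⟩ : ∃ G : Finset (Fin (m + 1) → ℕ), G = (inj (m + 1) H).filter
      (fun h => a / 2 * E ≤ (#(ncon x Y H T h) : ℝ)) := ⟨_, rfl⟩
  rw [← hG] at hcnt
  have hGm : ∀ h ∈ G, h ∈ inj (m + 1) H ∧ StrictMono h ∧ a / 2 * E ≤ (#(ncon x Y H T h) : ℝ) := by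
    intro h hh
    rw [hG, mem_filter] at hh
    refine ⟨hh.1, ?_, hh.2⟩
    by_contra hcon
    have h1 : ncon x Y H T h = ∅ := by
      unfold ncon
      rw [filter_eq_empty_iff]
      intro y _ hy
      exact hcon hy.2.1
    have h2 := hh.2
    rw [h1, card_empty, Nat.cast_zero] at h2
    have h3 : 0 < a / 2 * E := by positivity
    linarith
  have hlt : ∀ h ∈ G, ∀ i, h i < H := by
    intro h hh i
    have h1 := (hGm h hh).1
    unfold Run7.h462.KT.inj at h1
    rw [mem_filter, Fintype.mem_piFinset] at h1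
    exact mem_range.1 (h1.1 i)
  refine ⟨G.image (fun h i => h i - h 0), ?_, ?_⟩
  · -- the number of the differences
    have h1 : #G ≤ H * #(G.image (fun h i => h i - h 0)) := by
      have h2 : #G ≤ #(range H ×ˢ G.image (fun (h : Fin (m + 1) → ℕ) i => h i - h 0)) := by
        apply card_le_card_of_injOn (fun h => (h 0, fun i => h i - h 0))
        · intro h hh
          rw [mem_coe] at hh
          rw [mem_coe, mem_product]
          exact ⟨mem_range.2 (hlt h hh 0), mem_image_of_mem _ hh⟩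
        · intro h hh h' hh' heq
          rw [mem_coe] at hh hh'
          simp only [Prod.mk.injEq] at heq
          funext i
          have h3 := congrFun heq.2 i
          have h4 := (hGm h hh).2.1.monotone (Fin.zero_le i)
          have h5 := (hGm h' hh').2.1.monotone (Fin.zero_le i)
          have h6 := heq.1
          omega
      rw [card_product, card_range] at h2
      exact h2
    have h2 : (#G : ℝ) ≤ H * #(G.image (fun h i => h i - h 0)) := by exact_mod_cast h1
    have h3 : c * (H : ℝ) ^ (m + 1) ≤ H * #(G.image (fun h i => h i - h 0)) := by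
      refine le_trans ?_ (hcnt.trans h2)
      exact mul_le_mul_of_nonneg_right hcc2 (by positivity)
    have h4 : (c * (H : ℝ) ^ m) * H ≤ #(G.image (fun h i => h i - h 0)) * H := by
      calc (c * (H : ℝ) ^ m) * H = c * (H : ℝ) ^ (m + 1) := by ring
        _ ≤ H * #(G.image (fun h i => h i - h 0)) := h3
        _ = _ := mul_comm _ _
    have h5 := le_of_mul_le_mul_right h4 hH0
    refine le_trans ?_ h5
    apply mul_le_mul_of_nonneg_left _ hc0.le
    apply pow_le_pow_left₀ hL0.le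
    nlinarith
  · intro D' hD'
    rw [mem_image] at hD'
    obtain ⟨h, hh, rfl⟩ := hD'
    obtain ⟨h1, h2, h3⟩ := hGm h hh
    refine ⟨?_, by simp, ?_, ?_⟩
    · intro i j hij
      have h4 := h2 hij
      have h5 := h2.monotone (Fin.zero_le i)
      simp only
      omega
    · intro i
      have h4 := hlt h hh i
      have h5 : ((h i - h 0 : ℕ) : ℝ) + 1 ≤ H := by exact_mod_cast (by omega : h i - h 0 + 1 ≤ H)
      linarith
    · have h4 : (#(ncon x Y H T h) : ℝ) ≤ con T (fun i => h i - h 0) := by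
        exact_mod_cast ncon_le_con x Y H T h h2
      refine le_trans ?_ (h3.trans h4)
      rw [← hE]
      exact mul_le_mul_of_nonneg_right hcc1 hE0.le

end Run7.h462.LW
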