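import Pool.Agent.Run7.h462.LW.FinB

/-!
# Project LW (helper462): between consecutive powers
-/

set_option autoImplicit false

namespace Run7.h462.LW

open Finset Filter Topology
open Run7.h462.KT (gk inj S_GA)
open scoped Polynomial

/-- the number of the `y` with all `y + h_i` in `T` -/
def pat {k : ℕ} (b : ℕ) (T : Finset ℕ) (h : Fin k → ℕ) : ℕ := #((range b).filter (fun y => ∀ i, y + h i ∈ T))

open Classical in
/-- the number of the `t` for which `t + D_0 = t, ..., t + D_m` are consecutive elements of `T` -/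
noncomputable def csc {m : ℕ} (T : Finset ℕ) (D : Fin (m + 1) → ℕ) : ℕ :=
  #(T.filter (fun t => (∀ i, t + D i ∈ T) ∧ ∀ u ∈ T, t ≤ u → (∃ i, u ≤ t + D i) → ∃ i, u = t + D i))

lemma pow_up (m n : ℕ) (hn : 1 ≤ n) : (n + 1) ^ (m + 1) ≤ n ^ (m + 1) + (2 ^ (m + 1) - 1) * n ^ m := by
  induction m with
  | zero => simp
  | succ m ih =>
    have h1 : 1 ≤ 2 ^ (m + 1) := Nat.one_le_two_pow
    have h2 : n ^ m ≤ n ^ (m + 1) := Nat.pow_le_pow_right hn (by omega)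
    obtain ⟨e, he⟩ : ∃ e, 2 ^ (m + 1) = e + 1 := ⟨2 ^ (m + 1) - 1, by omega⟩
    rw [he] at ih
    have h3 : 2 ^ (m + 1 + 1) - 1 = 2 * e + 1 := by
      rw [pow_succ, he]
      omega
    rw [h3]
    simp only [Nat.add_sub_cancel] at ih
    calc (n + 1) ^ (m + 1 + 1) = (n + 1) ^ (m + 1) * (n + 1) := pow_succ _ _
      _ ≤ (n ^ (m + 1) + e * n ^ m) * (n + 1) := Nat.mul_le_mul_right _ ih
      _ = n ^ (m + 1) * n + e * (n ^ m * n) + n ^ (m + 1) + e * n ^ m := by ring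
      _ = n ^ (m + 1 + 1) + e * n ^ (m + 1) + n ^ (m + 1) + e * n ^ m := by rw [← pow_succ, ← pow_succ]
      _ ≤ n ^ (m + 1 + 1) + e * n ^ (m + 1) + n ^ (m + 1) + e * n ^ (m + 1) := by
          have := Nat.mul_le_mul_left e h2
          omega
      _ = n ^ (m + 1 + 1) + (2 * e + 1) * n ^ (m + 1) := by ring

lemma pow_lo (m n : ℕ) : n ^ (m + 1) + n ^ m ≤ (n + 1) ^ (m + 1) := by
  calc n ^ (m + 1) + n ^ m = n ^ m * (n + 1) := by ring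
    _ ≤ (n + 1) ^ m * (n + 1) := Nat.mul_le_mul_right _ (Nat.pow_le_pow_left (by omega) m)
    _ = _ := (pow_succ _ _).symm

/-- the sizes -/
lemma sizes (d n Y : ℕ) (hd : 1 ≤ d) (hn : 2 ^ (d + 1) ≤ n) (hY : Y = (n + 1) ^ (d + 1) - n ^ (d + 1)) :
    n ^ d ≤ Y ∧ (Y : ℝ) ≤ 2 ^ (d + 1) * (n : ℝ) ^ d ∧ (Y : ℝ) ≤ (n : ℝ) ^ (d + 1) ∧ 0 < Real.log n ∧
      Real.log n ≤ Real.log Y ∧ Real.log Y ≤ (d + 1) * Real.log n ∧ n ≤ Y := by
  have h21 : 1 ≤ 2 ^ (d + 1) := Nat.one_le_two_pow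
  have h22 : 2 ≤ 2 ^ (d + 1) := by
    calc 2 = 2 ^ 1 := by norm_num
      _ ≤ 2 ^ (d + 1) := Nat.pow_le_pow_right (by norm_num) (by omega)
  have hn1 : 1 ≤ n := by omega
  have h1 := pow_lo d n
  have h2 := pow_up d n hn1
  have h3 : n ^ d ≤ Y := by omega
  have h4 : Y ≤ 2 ^ (d + 1) * n ^ d := by
    have : (2 ^ (d + 1) - 1) * n ^ d ≤ 2 ^ (d + 1) * n ^ d := Nat.mul_le_mul_right _ (by omega)
    omega
  have h5 : Y ≤ n ^ (d + 1) := by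
    refine h4.trans ?_
    rw [pow_succ n d, mul_comm (n ^ d)]
    exact Nat.mul_le_mul_right _ hn
  have h4' : (Y : ℝ) ≤ 2 ^ (d + 1) * (n : ℝ) ^ d := by exact_mod_cast h4
  have h5' : (Y : ℝ) ≤ (n : ℝ) ^ (d + 1) := by exact_mod_cast h5
  have hlog : 0 < Real.log n := Real.log_pos (by exact_mod_cast (by omega : 1 < n))
  have hnY : n ≤ Y := by
    calc n = n ^ 1 := (pow_one n).symm
      _ ≤ n ^ d := Nat.pow_le_pow_right hn1 hd
      _ ≤ Y := h3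
  have hn0 : (0 : ℝ) < n := by exact_mod_cast hn1
  have hY0 : (0 : ℝ) < Y := lt_of_lt_of_le hn0 (by exact_mod_cast hnY)
  refine ⟨h3, h4', h5', hlog, Real.log_le_log hn0 (by exact_mod_cast hnY), ?_, hnY⟩
  have h6 := Real.log_le_log hY0 h5'
  rw [Real.log_pow] at h6
  push_cast at h6
  exact h6

lemma cnt_le_pat {k : ℕ} (hk : 1 ≤ k) (a b H : ℕ) (hab : a ≤ b) (hH : H ≤ a) (T : Finset ℕ) (hT : T ⊆ Ioo a b) (h : Fin k → ℕ)
    (hh : h ∈ inj k H) : cnt (a : ℤ) (b - a) H (T.image (fun t : ℕ => (t : ℤ))) h ≤ pat b T h := by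
  classical
  unfold cnt pat
  have hhi : ∀ i, h i < H := by
    intro i
    unfold Run7.h462.KT.inj at hh
    rw [mem_filter, Fintype.mem_piFinset] at hh
    exact mem_range.1 (hh.1 i)
  have key : ∀ y : ℤ, (∀ i, y + (h i : ℤ) ∈ T.image (fun t : ℕ => (t : ℤ))) → 0 ≤ y ∧ y < b ∧ ∀ i, y.toNat + h i ∈ T := by
    intro y hy
    have h0 := hy ⟨0, hk⟩
    rw [mem_image] at h0
    obtain ⟨t, ht1, ht2⟩ := h0
    have h1 := mem_Ioo.1 (hT ht1)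
    have h2 := hhi ⟨0, hk⟩
    have h3 : 0 ≤ y := by omega
    refine ⟨h3, by omega, fun i => ?_⟩
    have h4 := hy i
    rw [mem_image] at h4
    obtain ⟨u, hu1, hu2⟩ := h4
    have h5 : y.toNat + h i = u := by omega
    rw [h5]
    exact hu1
  apply card_le_card_of_injOn (fun y => y.toNat)
  · intro y hy
    rw [mem_coe, mem_filter] at hy
    obtain ⟨h1, h2, h3⟩ := key y hy.2
    rw [mem_coe, mem_filter, mem_range]
    beta_reduce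
    exact ⟨by omega, h3⟩
  · intro y hy y' hy' heq
    rw [mem_coe, mem_filter] at hy hy'
    have h1 := key y hy.2
    have h2 := key y' hy'.2
    simp only at heq
    omega

lemma con_le_csc {m : ℕ} (T : Finset ℕ) (D : Fin (m + 1) → ℕ) :
    con (T.image (fun t : ℕ => (t : ℤ))) D ≤ csc T D := by
  classical
  unfold con csc
  have key : ∀ t : ℤ, t ∈ T.image (fun t : ℕ => (t : ℤ)) → 0 ≤ t ∧ t.toNat ∈ T := by
    intro t ht
    rw [mem_image] at ht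
    obtain ⟨u, hu1, hu2⟩ := ht
    refine ⟨by omega, ?_⟩
    rw [show t.toNat = u by omega]
    exact hu1
  apply card_le_card_of_injOn (fun y => y.toNat)
  · intro t ht
    rw [mem_coe, mem_filter] at ht
    obtain ⟨h1, h2, h3⟩ := ht
    obtain ⟨h4, h5⟩ := key t h1
    rw [mem_coe, mem_filter]
    beta_reduce
    refine ⟨h5, fun i => ?_, fun u hu hu1 hu2 => ?_⟩
    · have h6 := key _ (h2 i)
      rw [show t.toNat + D i = (t + (D i : ℤ)).toNat by omega]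
      exact h6.2
    · obtain ⟨i, hi⟩ := hu2
      obtain ⟨j, hj⟩ := h3 (u : ℤ) (mem_image_of_mem _ hu) (by omega) ⟨i, by omega⟩
      exact ⟨j, by omega⟩
  · intro y hy y' hy' heq
    rw [mem_coe, mem_filter] at hy hy'
    have h1 := key y hy.1
    have h2 := key y' hy'.1
    simp only at heq
    omega

lemma sub_Ioc (a b : ℕ) (hab : a ≤ b) (T : Finset ℕ) (hT : T ⊆ Ioo a b) :
    T.image (fun t : ℕ => (t : ℤ)) ⊆ Ioc (a : ℤ) ((a : ℤ) + ((b - a : ℕ) : ℤ)) := by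
  intro y hy
  rw [mem_image] at hy
  obtain ⟨t, ht, rfl⟩ := hy
  have h1 := mem_Ioo.1 (hT ht)
  rw [mem_Ioc]
  omega

lemma rgh (d n Y : ℕ) (κ : ℝ) (hκ : 0 < κ) (hn : 1 ≤ n) (hY : (Y : ℝ) ≤ (n : ℝ) ^ (d + 1)) (T : Finset ℕ)
    (hT : ∀ t ∈ T, ∀ p : ℕ, p.Prime → (p : ℝ) ≤ (n : ℝ) ^ κ → ¬ p ∣ t) :
    Rgh (κ / (d + 1)) Y (T.image (fun t : ℕ => (t : ℤ))) := by
  intro y hy p hp hpY hdv
  rw [mem_image] at hy
  obtain ⟨t, ht, rfl⟩ := hy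
  have hn0 : (0 : ℝ) ≤ n := Nat.cast_nonneg n
  refine hT t ht p hp (hpY.trans ?_) (by exact_mod_cast hdv)
  calc (Y : ℝ) ^ (κ / (d + 1)) ≤ ((n : ℝ) ^ (d + 1)) ^ (κ / (d + 1)) :=
        Real.rpow_le_rpow (Nat.cast_nonneg _) hY (by positivity)
    _ = (n : ℝ) ^ κ := by
        rw [← Real.rpow_natCast, ← Real.rpow_mul hn0]
        congr 1
        push_cast
        field_simp

lemma dens (d n Y : ℕ) (δ t : ℝ) (hδ : 0 < δ) (hY : (Y : ℝ) ≤ 2 ^ (d + 1) * (n : ℝ) ^ d) (hl : 0 < Real.log n)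
    (hlY : Real.log n ≤ Real.log Y) (ht : δ * ((n : ℝ) ^ d / Real.log n) ≤ t) :
    δ / 2 ^ (d + 1) * (Y / Real.log Y) ≤ t := by
  refine le_trans ?_ ht
  have h1 : (Y : ℝ) / Real.log Y ≤ 2 ^ (d + 1) * (n : ℝ) ^ d / Real.log n := by
    apply div_le_div₀ (by positivity) hY hl hlY
  calc δ / 2 ^ (d + 1) * (Y / Real.log Y) ≤ δ / 2 ^ (d + 1) * (2 ^ (d + 1) * (n : ℝ) ^ d / Real.log n) := by gcongr
    _ = δ * ((n : ℝ) ^ d / Real.log n) := by field_simp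

theorem powA (d k : ℕ) (hd : 1 ≤ d) (hk : 1 ≤ k) (hSM : S_SM k) (hCUT : S_CUT k) (hUPW : S_UPW k) (hFMW : S_FMW k)
    (hGA : S_GA k) (κ δ η : ℝ) (hκ : 0 < κ) (hδ : 0 < δ) (hη : 0 < η) (hη1 : η ≤ 1) :
    ∃ c B : ℝ, 0 < c ∧ 0 < B ∧ ∃ N₀ : ℕ, ∀ n : ℕ, N₀ ≤ n → ∀ T ⊆ Ioo (n ^ (d + 1)) ((n + 1) ^ (d + 1)),
      (∀ t ∈ T, ∀ p : ℕ, p.Prime → (p : ℝ) ≤ (n : ℝ) ^ κ → ¬ p ∣ t) → δ * ((n : ℝ) ^ d / Real.log n) ≤ #T →
      ∀ H : ℕ, B * Real.log n ≤ H → (H : ℝ) ≤ c * (n : ℝ) ^ d →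
      ∃ G ⊆ inj k H, c * (H : ℝ) ^ k ≤ #G ∧
        ∀ h ∈ G, ∀ z : ℕ, ((d + 1) * Real.log n) ^ 2 ≤ z → c ≤ gk (Polynomial.X : ℤ[X]) h z ∧
          (1 - η) * gk (Polynomial.X : ℤ[X]) h z *
            ((#T : ℝ) ^ k / (((n + 1) ^ (d + 1) - n ^ (d + 1) : ℕ) : ℝ) ^ (k - 1)) ≤ pat ((n + 1) ^ (d + 1)) T h := by
  classical
  obtain ⟨c, B, hc, hB, Y₀, hmain⟩ := finA k hk hSM hCUT hUPW hFMW hGA (κ / (d + 1)) (δ / 2 ^ (d + 1)) η
    (by positivity) (by positivity) hη hη1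
  refine ⟨min c 1, B * (d + 1), lt_min hc one_pos, by positivity, max Y₀ (2 ^ (d + 1)), fun n hn T hT hR hdens H hH1 hH2 => ?_⟩
  have hn1 : Y₀ ≤ n := (le_max_left _ _).trans hn
  have hn2 : 2 ^ (d + 1) ≤ n := (le_max_right _ _).trans hn
  obtain ⟨Y, hY⟩ : ∃ Y, Y = (n + 1) ^ (d + 1) - n ^ (d + 1) := ⟨_, rfl⟩
  obtain ⟨s1, s2, s3, s4, s5, s6, s7⟩ := sizes d n Y hd hn2 hY
  have hn0 : 1 ≤ n := by
    have : 1 ≤ 2 ^ (d + 1) := Nat.one_le_two_pow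
    omega
  have hab : n ^ (d + 1) ≤ (n + 1) ^ (d + 1) := Nat.pow_le_pow_left (by omega) _
  have hHn : (H : ℝ) ≤ (n : ℝ) ^ d := hH2.trans (by
    have : 0 ≤ (n : ℝ) ^ d := by positivity
    nlinarith [min_le_right c 1])
  have hHa : H ≤ n ^ (d + 1) := by
    have h1 : H ≤ n ^ d := by exact_mod_cast hHn
    exact h1.trans (Nat.pow_le_pow_right hn0 (by omega))
  have hT2 := sub_Ioc _ _ hab T hT
  rw [← hY] at hT2
  have hcardT : #(T.image (fun t : ℕ => (t : ℤ))) = #T := card_image_of_injective _ Nat.cast_injective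
  have s1' : (n : ℝ) ^ d ≤ Y := by exact_mod_cast s1
  obtain ⟨G, hG1, hG2, hG3⟩ := hmain Y (hn1.trans s7) ((n ^ (d + 1) : ℕ) : ℤ) (T.image (fun t : ℕ => (t : ℤ))) hT2
    (rgh d n Y κ hκ hn0 s3 T hR) (by
      rw [hcardT]
      exact dens d n Y δ _ hδ s2 s4 s5 hdens) H (by
      calc B * Real.log Y ≤ B * ((d + 1) * Real.log n) := by gcongr
        _ = B * (d + 1) * Real.log n := by ring
        _ ≤ H := hH1) (by
      refine hH2.trans ?_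
      calc min c 1 * (n : ℝ) ^ d ≤ c * (n : ℝ) ^ d := by gcongr; exact min_le_left _ _
        _ ≤ c * Y := by gcongr)
  refine ⟨G, hG1, le_trans (mul_le_mul_of_nonneg_right (min_le_left _ _) (by positivity)) hG2, fun h hh z hz => ?_⟩
  obtain ⟨h1, h2⟩ := hG3 h hh z (by
    refine le_trans ?_ hz
    apply pow_le_pow_left₀ (by linarith) s6)
  refine ⟨(min_le_left _ _).trans h1, ?_⟩
  rw [hcardT] at h2
  rw [← hY]
  refine h2.trans ?_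
  have h3 := cnt_le_pat hk (n ^ (d + 1)) ((n + 1) ^ (d + 1)) H hab hHa T hT h (hG1 hh)
  rw [← hY] at h3
  exact_mod_cast h3

theorem powB (d m : ℕ) (hd : 1 ≤ d) (hSM : S_SM (m + 1)) (hUPW : S_UPW (m + 1)) (κ δ : ℝ) (hκ : 0 < κ) (hδ : 0 < δ) :
    ∃ c B : ℝ, 0 < c ∧ 0 < B ∧ ∃ N₀ : ℕ, ∀ n : ℕ, N₀ ≤ n → ∀ T ⊆ Ioo (n ^ (d + 1)) ((n + 1) ^ (d + 1)),
      (∀ t ∈ T, ∀ p : ℕ, p.Prime → (p : ℝ) ≤ (n : ℝ) ^ κ → ¬ p ∣ t) → δ * ((n : ℝ) ^ d / Real.log n) ≤ #T →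
      ∃ G : Finset (Fin (m + 1) → ℕ), c * Real.log n ^ m ≤ #G ∧
        ∀ D ∈ G, StrictMono D ∧ D 0 = 0 ∧ (∀ i, (D i : ℝ) ≤ B * Real.log n) ∧
          c * ((n : ℝ) ^ d / Real.log n ^ (m + 1)) ≤ csc T D := by
  classical
  obtain ⟨c, B, hc, hB, Y₀, hmain⟩ := finB m hSM hUPW (κ / (d + 1)) (δ / 2 ^ (d + 1)) (by positivity) (by positivity)
  have hd1 : (1 : ℝ) ≤ (d + 1 : ℝ) ^ (m + 1) := one_le_pow₀ (by
    have : (0 : ℝ) ≤ d := Nat.cast_nonneg d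
    linarith)
  refine ⟨c / (d + 1) ^ (m + 1), B * (d + 1), by positivity, by positivity, max Y₀ (2 ^ (d + 1)), fun n hn T hT hR hdens => ?_⟩
  have hn1 : Y₀ ≤ n := (le_max_left _ _).trans hn
  have hn2 : 2 ^ (d + 1) ≤ n := (le_max_right _ _).trans hn
  obtain ⟨Y, hY⟩ : ∃ Y, Y = (n + 1) ^ (d + 1) - n ^ (d + 1) := ⟨_, rfl⟩
  obtain ⟨s1, s2, s3, s4, s5, s6, s7⟩ := sizes d n Y hd hn2 hY
  have hn0 : 1 ≤ n := by
    have : 1 ≤ 2 ^ (d + 1) := Nat.one_le_two_pow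
    omega
  have hab : n ^ (d + 1) ≤ (n + 1) ^ (d + 1) := Nat.pow_le_pow_left (by omega) _
  have hT2 := sub_Ioc _ _ hab T hT
  rw [← hY] at hT2
  have hcardT : #(T.image (fun t : ℕ => (t : ℤ))) = #T := card_image_of_injective _ Nat.cast_injective
  have s1' : (n : ℝ) ^ d ≤ Y := by exact_mod_cast s1
  obtain ⟨G, hG1, hG2⟩ := hmain Y (hn1.trans s7) ((n ^ (d + 1) : ℕ) : ℤ) (T.image (fun t : ℕ => (t : ℤ))) hT2
    (rgh d n Y κ hκ hn0 s3 T hR) (by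
      rw [hcardT]
      exact dens d n Y δ _ hδ s2 s4 s5 hdens)
  have hc' : c / (d + 1) ^ (m + 1) ≤ c := div_le_self hc.le hd1
  refine ⟨G, ?_, fun D hD => ?_⟩
  · refine le_trans ?_ hG1
    apply mul_le_mul hc' _ (by positivity) hc.le
    exact pow_le_pow_left₀ s4.le s5 m
  · obtain ⟨h1, h2, h3, h4⟩ := hG2 D hD
    refine ⟨h1, h2, fun i => (h3 i).trans ?_, ?_⟩
    · calc B * Real.log Y ≤ B * ((d + 1) * Real.log n) := by gcongr
        _ = _ := by ring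
    · have h5 : (con (T.image (fun t : ℕ => (t : ℤ))) D : ℝ) ≤ csc T D := by exact_mod_cast con_le_csc T D
      refine le_trans ?_ (h4.trans h5)
      have hlY : 0 < Real.log Y := lt_of_lt_of_le s4 s5
      calc c / (d + 1) ^ (m + 1) * ((n : ℝ) ^ d / Real.log n ^ (m + 1)) =
          c * ((n : ℝ) ^ d / ((d + 1) * Real.log n) ^ (m + 1)) := by
            rw [mul_pow]
            field_simp
        _ ≤ c * (Y / Real.log Y ^ (m + 1)) := by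
            apply mul_le_mul_of_nonneg_left _ hc.le
            apply div_le_div₀ (by positivity) s1' (by positivity)
            exact pow_le_pow_left₀ hlY.le s6 _

end Run7.h462.LW
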